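import Pool.Graph.R_seed8.H295R2.L
import Pool.Graph.R_pool_sql_team_seeded_3997aac3.Q211.GB.Bas
import Pool.Graph.R_pool_sql_team_seeded_3997aac3.Q252.GB.Per

/-!
# Bounds of Littlewood type in a zero-free half-plane (helper313)

`lw_bound` is copied from helper480's `Pool/Agent/H480/G8.lean`.
-/

set_option autoImplicit false

namespace Pool.Agent.H313.NR

open Complex MeasureTheory Filter Topology Set Metric
open Pool.Agent.Q286.GB

/-- **Littlewood's argument** -/
theorem lw_bound {R r r0 K ε : ℝ} (h0 : 0 < r0) (h0R : r0 < R) (hr : 0 < r) (hrR : r < R) (hε : 0 < ε) (hK : 1 ≤ K) :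
    ∃ C : ℝ, 0 ≤ C ∧ ∀ f : ℂ → ℂ, ∀ A : ℝ, 1 ≤ A → DifferentiableOn ℂ f (ball 0 R) →
      (∀ z ∈ ball (0:ℂ) R, f z ≠ 0) → (∀ z ∈ ball (0:ℂ) R, ‖f z‖ ≤ Real.exp A) →
      (∀ z ∈ ball (0:ℂ) r0, ‖f z‖ ≤ K ∧ ‖(f z)⁻¹‖ ≤ K) → ∀ z : ℂ, ‖z‖ ≤ r → ‖(f z)⁻¹‖ ≤ Real.exp (C + ε * A) := by
  set R' : ℝ := (R + max r r0) / 2 with hR'
  have hmr : max r r0 < R := max_lt hrR h0R
  have hRR' : R' < R := by rw [hR']; linarith
  have hrR' : r < R' := by
    have := le_max_left r r0
    rw [hR']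
    linarith
  have hr0R' : r0 < R' := by
    have := le_max_right r r0
    rw [hR']
    linarith
  have hR0 : 0 < R := by linarith
  have hR'0 : 0 < R' := by linarith
  have hlogK : 0 ≤ Real.log K := Real.log_nonneg hK
  set r1 : ℝ := r0 / 2 with hr1
  have hr10 : 0 < r1 := by positivity
  set C1 : ℝ := 2 * (Real.log K + 1) * r1 / (r0 - r1) + (Real.log K + 4) * (r0 + r1) / (r0 - r1) with hC1
  have hd0 : 0 < r0 - r1 := by rw [hr1]; linarith
  have hC1pos : 0 < C1 := by positivity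
  have hdR : 0 < R - R' := by linarith
  set C2 : ℝ := 2 * R' / (R - R') + (Real.log K + 4) * (R + R') / (R - R') with hC2
  have hC2pos : 0 < C2 := by positivity
  have hratio : r / R' < 1 := by rw [div_lt_one hR'0]; exact hrR'
  have hratio0 : 0 ≤ r / R' := by positivity
  obtain ⟨N, hN⟩ := exists_pow_lt_of_lt_one (div_pos hε hC2pos) hratio
  have hN' : C2 * (r / R') ^ N ≤ ε := by
    have := (lt_div_iff₀ hC2pos).mp hN
    linarith
  set C3 : ℝ := C1 * (r / r1) ^ N with hC3
  have hC3pos : 0 ≤ C3 := by positivity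
  refine ⟨C1 + C3, by positivity, ?_⟩
  intro L0 A hA hfd hfne hfA hfK z hz
  obtain ⟨L, hLd, hLexp, hL0⟩ := H295R2.exists_log_ball hR0 hfd hfne
  have hLre : ∀ z ∈ ball (0:ℂ) R, (L z).re = Real.log ‖L0 z‖ := by
    intro z hz'
    rw [← hLexp z hz', Complex.norm_exp, Real.log_exp]
  have hL00 : ‖L 0‖ ≤ Real.log K + 4 := by
    rw [hL0]
    have h1 := hfK 0 (mem_ball_self h0)
    exact H295R2.norm_log_le hK h1.1 h1.2 (hfne 0 (mem_ball_self hR0))
  have hupper : MapsTo L (ball 0 R) {z | z.re ≤ A} := by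
    intro w hw
    change (L w).re ≤ A
    rw [hLre w hw]
    have := Real.log_le_log (norm_pos_iff.2 (hfne w hw)) (hfA w hw)
    rwa [Real.log_exp] at this
  have hBC : ∀ z : ℂ, ‖z‖ ≤ R' → ‖L z‖ ≤ C2 * A := by
    intro z hz'
    have hzR : z ∈ ball (0:ℂ) R := by rw [mem_ball_zero_iff]; linarith
    have h1 := Complex.borelCaratheodory (by linarith : 0 < A) hLd hupper hR0 hzR
    refine h1.trans ?_
    have hd2 : R - R' ≤ R - ‖z‖ := by linarith
    have e1 : 2 * A * ‖z‖ / (R - ‖z‖) ≤ 2 * A * R' / (R - R') := by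
      have : 0 ≤ 2 * A * R' := by positivity
      gcongr
    have e2 : ‖L 0‖ * (R + ‖z‖) / (R - ‖z‖) ≤ (Real.log K + 4) * (R + R') / (R - R') := by
      gcongr
    have e3 : 0 ≤ (Real.log K + 4) * (R + R') / (R - R') := by positivity
    calc _ ≤ 2 * A * R' / (R - R') + (Real.log K + 4) * (R + R') / (R - R') := add_le_add e1 e2
      _ ≤ C2 * A := by
        rw [hC2]
        have e4 : 2 * A * R' / (R - R') = (2 * R' / (R - R')) * A := by ring
        rw [e4]
        generalize (Real.log K + 4) * (R + R') / (R - R') = q at e3 ⊢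
        generalize 2 * R' / (R - R') = p
        nlinarith
  have hsmall : ∀ z : ℂ, ‖z‖ ≤ r1 → ‖L z‖ ≤ C1 := by
    intro z hz'
    have hsub : ball (0:ℂ) r0 ⊆ ball (0:ℂ) R := ball_subset_ball h0R.le
    have hup2 : MapsTo L (ball 0 r0) {z | z.re ≤ Real.log K + 1} := by
      intro w hw
      change (L w).re ≤ _
      rw [hLre w (hsub hw)]
      have := Real.log_le_log (norm_pos_iff.mpr (hfne w (hsub hw))) (hfK w hw).1
      linarith
    have hzR : z ∈ ball (0:ℂ) r0 := by rw [mem_ball_zero_iff]; linarith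
    have h1 := Complex.borelCaratheodory (by linarith : 0 < Real.log K + 1) (hLd.mono hsub) hup2 h0 hzR
    refine h1.trans ?_
    have hd2 : r0 - r1 ≤ r0 - ‖z‖ := by linarith
    rw [hC1]
    refine add_le_add ?_ ?_
    · gcongr
    · gcongr
  have hLz : ‖L z‖ ≤ C1 + C3 + ε * A := by
    have hεA : 0 ≤ ε * A := by positivity
    rcases le_or_gt ‖z‖ r1 with h | hz1
    · have := hsmall z h
      linarith
    · set U : Set ℂ := ball 0 R' ∩ (closedBall (0:ℂ) r1)ᶜ with hU
      set B : ℝ := C2 * A with hB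
      have hBpos : 0 < B := by positivity
      have hclos : closure U ⊆ closedBall 0 R' ∩ (ball (0:ℂ) r1)ᶜ := by
        refine closure_minimal ?_ (isClosed_closedBall.inter isOpen_ball.isClosed_compl)
        rintro w ⟨hw1, hw2⟩
        refine ⟨ball_subset_closedBall hw1, fun hw3 => hw2 (ball_subset_closedBall hw3)⟩
      have hdiff : DiffContOnCl ℂ (fun w => L w / w ^ N) U := by
        refine DifferentiableOn.diffContOnCl ?_
        refine DifferentiableOn.mono (s := closure U) ?_ (subset_refl _)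
        intro w hw
        obtain ⟨hw1, hw2⟩ := hclos hw
        rw [mem_closedBall_zero_iff] at hw1
        rw [mem_compl_iff, mem_ball_zero_iff, not_lt] at hw2
        have hw0 : w ≠ 0 := by
          intro h
          rw [h, norm_zero] at hw2
          linarith
        have hwR : w ∈ ball (0:ℂ) R := by rw [mem_ball_zero_iff]; linarith
        refine DifferentiableAt.differentiableWithinAt ?_
        refine DifferentiableAt.div (hLd.differentiableAt (isOpen_ball.mem_nhds hwR)) (by fun_prop)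
          (pow_ne_zero _ hw0)
      have hfront : ∀ w ∈ frontier U, ‖L w / w ^ N‖ ≤ C1 / r1 ^ N + B / R' ^ N := by
        intro w hw
        have h1 : w ∈ frontier (ball (0:ℂ) R') ∪ frontier ((closedBall (0:ℂ) r1)ᶜ) := by
          rcases frontier_inter_subset _ _ hw with h | h
          · exact Or.inl h.1
          · exact Or.inr h.2
        have hp1 : 0 < C1 / r1 ^ N := by positivity
        have hp2 : 0 < B / R' ^ N := by positivity
        rcases h1 with h1 | h1
        · rw [frontier_ball _ hR'0.ne'] at h1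
          rw [mem_sphere_zero_iff_norm] at h1
          rw [norm_div, norm_pow, h1]
          have := hBC w h1.le
          calc ‖L w‖ / R' ^ N ≤ B / R' ^ N := by gcongr
            _ ≤ _ := by linarith
        · rw [frontier_compl, frontier_closedBall _ hr10.ne'] at h1
          rw [mem_sphere_zero_iff_norm] at h1
          rw [norm_div, norm_pow, h1]
          have := hsmall w h1.le
          calc ‖L w‖ / r1 ^ N ≤ C1 / r1 ^ N := by gcongr
            _ ≤ _ := by linarith
      have hzU : z ∈ U := by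
        refine ⟨?_, ?_⟩
        · rw [mem_ball_zero_iff]; linarith
        · rw [mem_compl_iff, mem_closedBall_zero_iff, not_le]; exact hz1
      have hbdd : Bornology.IsBounded U := isBounded_ball.subset inter_subset_left
      have h1 := Complex.norm_le_of_forall_mem_frontier_norm_le hbdd hdiff hfront (subset_closure hzU)
      rw [norm_div, norm_pow] at h1
      have hzpos : 0 < ‖z‖ ^ N := pow_pos (by linarith) _
      rw [div_le_iff₀ hzpos] at h1
      have h2 : ‖z‖ ^ N ≤ r ^ N := pow_le_pow_left₀ (norm_nonneg _) hz N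
      have h3 : ‖L z‖ ≤ C3 + ε * A := by
        calc ‖L z‖ ≤ (C1 / r1 ^ N + B / R' ^ N) * ‖z‖ ^ N := h1
          _ ≤ (C1 / r1 ^ N + B / R' ^ N) * r ^ N := by gcongr
          _ = C3 + (C2 * (r / R') ^ N) * A := by
            rw [hC3, hB, div_pow r r1, div_pow r R']
            generalize r1 ^ N = b
            generalize r ^ N = a
            ring
          _ ≤ _ := by gcongr
      linarith
  have hzR : z ∈ ball (0:ℂ) R := by rw [mem_ball_zero_iff]; linarith
  rw [← hLexp z hzR, ← Complex.exp_neg, Complex.norm_exp]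
  refine Real.exp_le_exp.2 ?_
  have := (Complex.abs_re_le_norm (-L z))
  rw [norm_neg] at this
  have := le_abs_self (-L z).re
  linarith


/-- `L` and `1/L` are `O(|t|^η)` in every closed half-plane inside a zero-free half-plane -/
theorem lit (O : LFn) {θ σ η : ℝ} (hz : ∀ s : ℂ, θ < s.re → O.L s ≠ 0) (hσ : θ < σ) (hη : 0 < η) :
    ∃ C : ℝ, 0 < C ∧ ∀ s : ℂ, σ ≤ s.re → ‖O.L s‖ ≤ C * (1 + |s.im|) ^ η ∧ ‖(O.L s)⁻¹‖ ≤ C * (1 + |s.im|) ^ η := by
  obtain ⟨K1, hK1, hK2, -⟩ := Pool.Agent.Q211.GB.L_bd O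
  obtain ⟨c0, hc0⟩ : ∃ c0 : ℝ, c0 = 3 + |σ| + |θ| := ⟨_, rfl⟩
  have hσa := le_abs_self σ
  have hθa := neg_abs_le θ
  have hσn := abs_nonneg σ
  have hθn := abs_nonneg θ
  obtain ⟨R, hR⟩ : ∃ R : ℝ, R = c0 - (2 * θ + σ) / 3 := ⟨_, rfl⟩
  obtain ⟨r1, hr1⟩ : ∃ r1 : ℝ, r1 = c0 - (θ + 2 * σ) / 3 := ⟨_, rfl⟩
  obtain ⟨r, hr⟩ : ∃ r : ℝ, r = c0 - σ := ⟨_, rfl⟩
  have hr3 : 3 ≤ r := by rw [hr, hc0]; linarith
  have hrr1 : r < r1 := by rw [hr, hr1]; linarith
  have hr1R : r1 < R := by rw [hR, hr1]; linarith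
  obtain ⟨C0, K, hC0, hK, hgr⟩ := O.grow (|θ| + |σ|)
  obtain ⟨A0, hA0⟩ : ∃ A0 : ℝ, A0 = |Real.log C0| + 1 + K * Real.log (1 + c0 + R) := ⟨_, rfl⟩
  have hl0 : 0 ≤ Real.log (1 + c0 + R) := Real.log_nonneg (by linarith)
  have hA01 : 1 ≤ A0 := by
    have h1 := abs_nonneg (Real.log C0)
    have h2 : 0 ≤ K * Real.log (1 + c0 + R) := by positivity
    linarith
  obtain ⟨e1, he1⟩ : ∃ e1 : ℝ, e1 = η / (K + 1) := ⟨_, rfl⟩
  have he10 : 0 < e1 := by rw [he1]; positivity
  have he1K : e1 * K ≤ η := by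
    rw [he1, div_mul_eq_mul_div, div_le_iff₀ (by positivity)]
    nlinarith
  obtain ⟨C1, hC1, h1⟩ := lw_bound (R := R) (r := r1) (r0 := 1) (K := K1) (ε := e1) one_pos (by linarith)
    (by linarith) hr1R he10 hK1
  obtain ⟨C2, hC2, h2⟩ := lw_bound (R := r1) (r := r) (r0 := 1) (K := K1) (ε := 1) one_pos (by linarith)
    (by linarith) hrr1 one_pos hK1
  obtain ⟨Cf, hCf⟩ : ∃ Cf : ℝ, Cf = Real.exp (C1 + e1 * A0) + Real.exp (C2 + (C1 + e1 * A0 + 1)) + K1 := ⟨_, rfl⟩
  have hE1 := Real.exp_pos (C1 + e1 * A0)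
  have hE2 := Real.exp_pos (C2 + (C1 + e1 * A0 + 1))
  refine ⟨Cf, by rw [hCf]; linarith, fun s hs => ?_⟩
  have hp : 1 ≤ (1 + |s.im|) ^ η := Real.one_le_rpow (by linarith [abs_nonneg s.im]) hη.le
  have fin : ∀ x y : ℝ, x ≤ y * (1 + |s.im|) ^ η → y ≤ Cf → x ≤ Cf * (1 + |s.im|) ^ η := fun x y h3 h4 =>
    h3.trans (mul_le_mul_of_nonneg_right h4 (by positivity))
  have hK1Cf : K1 ≤ Cf := by rw [hCf]; linarith
  rcases le_total c0 s.re with hc | hc
  · obtain ⟨-, h3, h4⟩ := hK2 s (by linarith)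
    refine ⟨fin _ K1 (h3.trans ?_) hK1Cf, fin _ K1 (h4.trans ?_) hK1Cf⟩ <;> nlinarith
  · obtain ⟨t, ht⟩ : ∃ t : ℝ, t = s.im := ⟨_, rfl⟩
    rw [← ht] at hp fin ⊢
    obtain ⟨cc, hcc⟩ : ∃ cc : ℂ, cc = c0 + t * I := ⟨_, rfl⟩
    have hre : ∀ z : ℂ, (cc + z).re = c0 + z.re := fun z => by simp [hcc]
    have him : ∀ z : ℂ, (cc + z).im = t + z.im := fun z => by simp [hcc]
    obtain ⟨f, hf⟩ : ∃ f : ℂ → ℂ, f = fun z => O.L (cc + z) := ⟨_, rfl⟩
    have hfd : Differentiable ℂ f := by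
      rw [hf]
      exact O.entire.comp (by fun_prop)
    have hne : ∀ z ∈ ball (0 : ℂ) R, f z ≠ 0 := by
      intro z hz'
      rw [mem_ball_zero_iff] at hz'
      have h3 := abs_lt.1 (lt_of_le_of_lt (Complex.abs_re_le_norm z) hz')
      rw [hf]
      refine hz _ ?_
      rw [hre]
      rw [hR] at h3
      linarith [h3.1]
    obtain ⟨A, hA⟩ : ∃ A : ℝ, A = A0 + K * Real.log (1 + |t|) := ⟨_, rfl⟩
    have hlt : 0 ≤ Real.log (1 + |t|) := Real.log_nonneg (by linarith [abs_nonneg t])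
    have hA1 : 1 ≤ A := by
      have : 0 ≤ K * Real.log (1 + |t|) := by positivity
      linarith
    have hfA : ∀ z ∈ ball (0 : ℂ) R, ‖f z‖ ≤ Real.exp A := by
      intro z hz'
      rw [mem_ball_zero_iff] at hz'
      have h3 := abs_lt.1 (lt_of_le_of_lt (Complex.abs_re_le_norm z) hz')
      have h4 : -(|θ| + |σ|) ≤ (cc + z).re := by
        rw [hre]
        rw [hR] at h3
        have := neg_abs_le σ
        linarith [h3.1]
      have h5 := hgr _ h4
      have h6 : ‖cc + z‖ ≤ c0 + R + |t| := by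
        refine (norm_add_le _ _).trans ?_
        have h7 : ‖cc‖ ≤ c0 + |t| := by
          rw [hcc]
          refine (norm_add_le _ _).trans ?_
          rw [norm_mul, norm_I, mul_one, Complex.norm_real, Complex.norm_real, Real.norm_eq_abs, Real.norm_eq_abs,
            abs_of_nonneg (show 0 ≤ c0 by linarith)]
        linarith
      have h7 : (1 + ‖cc + z‖) ^ K ≤ (1 + c0 + R) ^ K * (1 + |t|) ^ K := by
        rw [← Real.mul_rpow (by linarith) (by positivity)]
        refine Real.rpow_le_rpow (by positivity) ?_ hK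
        have := abs_nonneg t
        nlinarith
      have h8 : C0 ≤ Real.exp |Real.log C0| := by
        have := Real.exp_le_exp.2 (le_abs_self (Real.log C0))
        rwa [Real.exp_log hC0] at this
      have h9 : Real.exp A = Real.exp |Real.log C0| * Real.exp 1 * ((1 + c0 + R) ^ K * (1 + |t|) ^ K) := by
        rw [Real.rpow_def_of_pos (by linarith), Real.rpow_def_of_pos (by positivity), ← Real.exp_add, ← Real.exp_add,
          ← Real.exp_add, hA, hA0]
        congr 1
        ring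
      rw [hf]
      refine h5.trans ?_
      rw [h9]
      have h10 : (1 : ℝ) ≤ Real.exp 1 := Real.one_le_exp zero_le_one
      have h11 : 0 ≤ (1 + ‖cc + z‖) ^ K := by positivity
      calc C0 * (1 + ‖cc + z‖) ^ K ≤ Real.exp |Real.log C0| * ((1 + c0 + R) ^ K * (1 + |t|) ^ K) :=
            mul_le_mul h8 h7 h11 (Real.exp_pos _).le
        _ = Real.exp |Real.log C0| * 1 * ((1 + c0 + R) ^ K * (1 + |t|) ^ K) := by ring
        _ ≤ _ := by
            have : 0 ≤ (1 + c0 + R) ^ K * (1 + |t|) ^ K := by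
              have : 0 ≤ 1 + c0 + R := by linarith
              positivity
            gcongr
    have hnear : ∀ z ∈ ball (0 : ℂ) 1, ‖f z‖ ≤ K1 ∧ ‖(f z)⁻¹‖ ≤ K1 := by
      intro z hz'
      rw [mem_ball_zero_iff] at hz'
      have h3 := abs_lt.1 (lt_of_le_of_lt (Complex.abs_re_le_norm z) hz')
      rw [hf]
      refine (hK2 _ ?_).2
      rw [hre]
      linarith [h3.1]
    have s1 := h1 f A hA1 hfd.differentiableOn hne hfA hnear
    obtain ⟨A', hA'⟩ : ∃ A' : ℝ, A' = C1 + e1 * A + 1 := ⟨_, rfl⟩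
    have hA'1 : 1 ≤ A' := by
      have : 0 ≤ e1 * A := by positivity
      linarith
    have hsub : ball (0 : ℂ) r1 ⊆ ball (0 : ℂ) R := ball_subset_ball hr1R.le
    have s2 := h2 (fun z => (f z)⁻¹) A' hA'1 (fun z hz' => ((hfd z).inv (hne z (hsub hz'))).differentiableWithinAt)
      (fun z hz' => inv_ne_zero (hne z (hsub hz')))
      (fun z hz' => (s1 z (mem_ball_zero_iff.1 hz').le).trans (Real.exp_le_exp.2 (by rw [hA']; linarith)))
      (fun z hz' => by
        obtain ⟨h3, h4⟩ := hnear z hz'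
        exact ⟨h4, by rwa [inv_inv]⟩)
    obtain ⟨z, hzd⟩ : ∃ z : ℂ, z = ((s.re - c0 : ℝ) : ℂ) := ⟨_, rfl⟩
    have hsz : cc + z = s := by
      rw [hcc, hzd, ht]
      apply Complex.ext <;> simp
    have hzn : ‖z‖ ≤ r := by
      rw [hzd, Complex.norm_real, Real.norm_eq_abs, abs_le, hr]
      constructor <;> linarith
    have s3 := s1 z (hzn.trans hrr1.le)
    have s4 := s2 z hzn
    have hfz : f z = O.L s := by rw [hf]; exact congrArg O.L hsz
    rw [hfz] at s3 s4
    rw [inv_inv] at s4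
    have hpow : Real.exp (e1 * (K * Real.log (1 + |t|))) ≤ (1 + |t|) ^ η := by
      rw [Real.rpow_def_of_pos (by positivity)]
      refine Real.exp_le_exp.2 ?_
      calc e1 * (K * Real.log (1 + |t|)) = (e1 * K) * Real.log (1 + |t|) := by ring
        _ ≤ η * Real.log (1 + |t|) := mul_le_mul_of_nonneg_right he1K hlt
        _ = _ := by ring
    have hx1 : Real.exp (C1 + e1 * A) ≤ Real.exp (C1 + e1 * A0) * (1 + |t|) ^ η := by
      have : Real.exp (C1 + e1 * A) = Real.exp (C1 + e1 * A0) * Real.exp (e1 * (K * Real.log (1 + |t|))) := by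
        rw [← Real.exp_add, hA]
        congr 1
        ring
      rw [this]
      exact mul_le_mul_of_nonneg_left hpow (Real.exp_pos _).le
    have hx2 : Real.exp (C2 + 1 * A') ≤ Real.exp (C2 + (C1 + e1 * A0 + 1)) * (1 + |t|) ^ η := by
      have : Real.exp (C2 + 1 * A') = Real.exp (C2 + (C1 + e1 * A0 + 1)) * Real.exp (e1 * (K * Real.log (1 + |t|))) := by
        rw [← Real.exp_add, hA', hA]
        congr 1
        ring
      rw [this]
      exact mul_le_mul_of_nonneg_left hpow (Real.exp_pos _).le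
    exact ⟨fin _ _ (s4.trans hx2) (by rw [hCf]; linarith), fin _ _ (s3.trans hx1) (by rw [hCf]; linarith)⟩

end Pool.Agent.H313.NR
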