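import Pool.Graph.R_pool_sql_team_seeded_3997aac3.Q298.GB.Low
import Pool.Graph.R_pool_sql_team_seeded_3997aac3.Q286.GB.All

/-!
# The polynomial lower bound for the elementary distance from one zero (helper313)

The test function is `-(y^(-ρ) Hc(y/Y))'`, `Y = N^(1+δ)`; it is orthogonal to all the dilations up to a
negligible error, by the smoothed Dirichlet series of `L` at the zero `ρ`.
-/

set_option autoImplicit false

namespace Pool.Agent.H313.NR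

open Complex MeasureTheory Filter Topology Set
open Pool.Agent.Q286.GB
open Pool.Agent.Q298.GB (pairG pairG_le JE JE_nonneg CC_meas)
open Pool.Agent.Q151.GB (hC hC_smooth hC_lo hC_hi)

/-- the primitive of the test function -/
noncomputable def PP (ρ : ℂ) (Y y : ℝ) : ℂ := (y : ℂ) ^ (-ρ) * hC (y / Y)

/-- the test function -/
noncomputable def KK (ρ : ℂ) (Y y : ℝ) : ℂ :=
  ρ * (y : ℂ) ^ (-ρ - 1) * hC (y / Y) - (y : ℂ) ^ (-ρ) * (deriv hC (y / Y) / Y)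

lemma hC_diff : Differentiable ℝ hC := hC_smooth.differentiable (by simp)

lemma dhC_cont : Continuous (deriv hC) := hC_smooth.continuous_deriv (by exact_mod_cast le_top)

lemma dhC_hi {y : ℝ} (hy : 2 < y) : deriv hC y = 0 := by
  have h1 : hC =ᶠ[𝓝 y] fun _ => 0 := by
    filter_upwards [lt_mem_nhds hy] with z hz
    exact hC_hi z hz.le
  rw [h1.deriv_eq, deriv_const]

lemma dhC_lo {y : ℝ} (hy : y < 1) : deriv hC y = 0 := by
  have h1 : hC =ᶠ[𝓝 y] fun _ => 1 := by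
    filter_upwards [gt_mem_nhds hy] with z hz
    exact hC_lo z hz.le
  rw [h1.deriv_eq, deriv_const]

lemma dhC_bd : ∃ D : ℝ, 0 < D ∧ ∀ y : ℝ, ‖deriv hC y‖ ≤ D := by
  obtain ⟨M, hM⟩ := (isCompact_Icc (a := (0 : ℝ)) (b := 3)).exists_bound_of_continuousOn dhC_cont.continuousOn
  refine ⟨|M| + 1, by positivity, fun y => ?_⟩
  by_cases hy : y ∈ Icc (0 : ℝ) 3
  · have := hM y hy
    have := le_abs_self M
    linarith
  · rw [mem_Icc, not_and_or, not_le, not_le] at hy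
    have h0 : deriv hC y = 0 := by
      rcases hy with hy | hy
      · exact dhC_lo (by linarith)
      · exact dhC_hi (by linarith)
    rw [h0, norm_zero]
    positivity

lemma hC_norm (y : ℝ) : ‖hC y‖ ≤ 1 := by
  unfold hC Hc
  rw [Complex.norm_real, Real.norm_eq_abs, abs_of_nonneg (Real.smoothTransition.nonneg _)]
  exact Real.smoothTransition.le_one _

lemma PP_deriv (ρ : ℂ) {Y y : ℝ} (_hY : 0 < Y) (hy : 0 < y) : HasDerivAt (PP ρ Y) (-KK ρ Y y) y := by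
  have h1 : HasDerivAt (fun x : ℝ => (x : ℂ) ^ (-ρ)) (-ρ * (y : ℂ) ^ (-ρ - 1)) y := by
    have h2 : HasDerivAt (fun z : ℂ => z ^ (-ρ)) (-ρ * (y : ℂ) ^ (-ρ - 1) * 1) ((y : ℝ) : ℂ) :=
      (hasDerivAt_id ((y : ℝ) : ℂ)).cpow_const (Or.inl (by simpa using hy))
    rw [mul_one] at h2
    exact h2.comp_ofReal
  have h3 : HasDerivAt (fun x : ℝ => hC (x / Y)) (deriv hC (y / Y) / Y) y := by
    have h4 : HasDerivAt hC (deriv hC (y / Y)) (y / Y) := (hC_diff _).hasDerivAt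
    have h5 : HasDerivAt (fun x : ℝ => x / Y) (1 / Y) y := (hasDerivAt_id y).div_const Y
    have h6 := h4.scomp y h5
    have e : deriv hC (y / Y) / (Y : ℂ) = (1 / Y) • deriv hC (y / Y) := by
      rw [Complex.real_smul]
      push_cast
      ring
    rw [e]
    exact h6
  have h7 := h1.mul h3
  have e : -KK ρ Y y = -ρ * (y : ℂ) ^ (-ρ - 1) * hC (y / Y) + (y : ℂ) ^ (-ρ) * (deriv hC (y / Y) / Y) := by
    unfold KK
    ring
  rw [e]
  exact h7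

lemma KK_cont (ρ : ℂ) (Y : ℝ) : ContinuousOn (KK ρ Y) (Ioi 0) := by
  have h1 : ∀ w : ℂ, ContinuousOn (fun x : ℝ => (x : ℂ) ^ w) (Ioi 0) := fun w x hx =>
    (continuousAt_ofReal_cpow_const x w (Or.inr (ne_of_gt hx))).continuousWithinAt
  have h2 : Continuous (fun x : ℝ => hC (x / Y)) := hC_diff.continuous.comp (by fun_prop)
  have h3 : Continuous (fun x : ℝ => deriv hC (x / Y) / (Y : ℂ)) := (dhC_cont.comp (by fun_prop)).div_const _
  exact ((continuousOn_const.mul (h1 _)).mul h2.continuousOn).sub ((h1 _).mul h3.continuousOn)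

lemma PP_zero (ρ : ℂ) {Y y : ℝ} (hY : 0 < Y) (hy : 2 * Y ≤ y) : PP ρ Y y = 0 := by
  unfold PP
  rw [hC_hi _ (by rw [le_div_iff₀ hY]; exact hy), mul_zero]

lemma KK_zero (ρ : ℂ) {Y y : ℝ} (hY : 0 < Y) (hy : 2 * Y < y) : KK ρ Y y = 0 := by
  unfold KK
  rw [hC_hi _ (by rw [le_div_iff₀ hY]; exact hy.le), dhC_hi (by rw [lt_div_iff₀ hY]; exact hy)]
  simp

/-- the size of the test function -/
lemma KK_norm (ρ : ℂ) : ∃ D : ℝ, 0 < D ∧ ∀ Y : ℝ, 1 ≤ Y → ∀ y : ℝ, 1 ≤ y → ‖KK ρ Y y‖ ≤ D * y ^ (-ρ.re - 1) := by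
  obtain ⟨D, hD, h⟩ := dhC_bd
  refine ⟨‖ρ‖ + 2 * D, by positivity, fun Y hY y hy => ?_⟩
  have hY0 : 0 < Y := by linarith
  have hy0 : 0 < y := by linarith
  rcases lt_or_ge (2 * Y) y with h1 | h1
  · rw [KK_zero ρ hY0 h1, norm_zero]
    positivity
  · unfold KK
    refine (norm_sub_le _ _).trans ?_
    rw [norm_mul, norm_mul, norm_mul, norm_div, norm_cpow_eq_rpow_re_of_pos hy0, norm_cpow_eq_rpow_re_of_pos hy0,
      Complex.norm_real, Real.norm_eq_abs, abs_of_pos hY0]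
    have e1 : (-ρ - 1).re = -ρ.re - 1 := by simp
    have e2 : (-ρ).re = -ρ.re := by simp
    rw [e1, e2]
    have h2 : y ^ (-ρ.re) = y ^ (-ρ.re - 1) * y := by
      rw [Real.rpow_sub_one hy0.ne']
      field_simp
    have h3 : ‖ρ‖ * y ^ (-ρ.re - 1) * ‖hC (y / Y)‖ ≤ ‖ρ‖ * y ^ (-ρ.re - 1) * 1 :=
      mul_le_mul_of_nonneg_left (hC_norm _) (by positivity)
    have h4 : y ^ (-ρ.re) * (‖deriv hC (y / Y)‖ / Y) ≤ y ^ (-ρ.re - 1) * (2 * D) := by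
      rw [h2, mul_assoc]
      refine mul_le_mul_of_nonneg_left ?_ (by positivity)
      calc y * (‖deriv hC (y / Y)‖ / Y) ≤ (2 * Y) * (D / Y) := by
            have := h (y / Y)
            gcongr
        _ = 2 * D := by field_simp
    calc _ ≤ ‖ρ‖ * y ^ (-ρ.re - 1) * 1 + y ^ (-ρ.re - 1) * (2 * D) := add_le_add h3 h4
      _ = _ := by ring

/-- the norm of the test function -/
lemma KK_L2 (ρ : ℂ) {β : ℝ} (h1 : β ≤ ρ.re) (h2 : β < 1 / 2) : ∃ D : ℝ, 0 < D ∧ ∀ Y : ℝ, 1 ≤ Y →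
    IntegrableOn (fun y : ℝ => ‖KK ρ Y y‖ ^ 2 * y ^ 2) (Ioi 1) ∧
    ∫ y in Ioi (1 : ℝ), ‖KK ρ Y y‖ ^ 2 * y ^ 2 ≤ D * Y ^ (1 - 2 * β) := by
  obtain ⟨D, hD, h⟩ := KK_norm ρ
  have hb : 0 < 1 - 2 * β := by linarith
  refine ⟨D ^ 2 * (2 ^ (1 - 2 * β) / (1 - 2 * β)), by positivity, fun Y hY => ?_⟩
  have hY0 : 0 < Y := by linarith
  have hpt : ∀ y : ℝ, 1 ≤ y → ‖KK ρ Y y‖ ^ 2 * y ^ 2 ≤ D ^ 2 * y ^ (-(2 * β)) := by
    intro y hy
    have hy0 : 0 < y := by linarith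
    have h3 := h Y hY y hy
    calc ‖KK ρ Y y‖ ^ 2 * y ^ 2 ≤ (D * y ^ (-ρ.re - 1)) ^ 2 * y ^ 2 := by gcongr
      _ = D ^ 2 * y ^ (-(2 * ρ.re)) := by
          rw [mul_pow, ← Real.rpow_natCast (y ^ (-ρ.re - 1)) 2, ← Real.rpow_mul hy0.le, mul_assoc,
            ← Real.rpow_natCast y 2, ← Real.rpow_add hy0]
          congr 2
          push_cast
          ring
      _ ≤ D ^ 2 * y ^ (-(2 * β)) := by
          refine mul_le_mul_of_nonneg_left (Real.rpow_le_rpow_of_exponent_le hy (by linarith)) (by positivity)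
  have hzero : ∀ y ∈ Ioi (2 * Y), ‖KK ρ Y y‖ ^ 2 * y ^ 2 = 0 := by
    intro y hy
    rw [KK_zero ρ hY0 hy]
    simp
  have hcont : ContinuousOn (fun y : ℝ => ‖KK ρ Y y‖ ^ 2 * y ^ 2) (Icc 1 (2 * Y)) :=
    (((KK_cont ρ Y).mono fun y hy => lt_of_lt_of_le one_pos hy.1).norm.pow 2).mul (by fun_prop)
  have hi1 : IntegrableOn (fun y : ℝ => ‖KK ρ Y y‖ ^ 2 * y ^ 2) (Ioc 1 (2 * Y)) :=
    (hcont.integrableOn_compact isCompact_Icc).mono_set Ioc_subset_Icc_self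
  have hi2 : IntegrableOn (fun y : ℝ => ‖KK ρ Y y‖ ^ 2 * y ^ 2) (Ioi (2 * Y)) :=
    IntegrableOn.congr_fun (f := fun _ => (0 : ℝ)) integrableOn_zero (fun y hy => (hzero y hy).symm) measurableSet_Ioi
  have hu : Ioi (1 : ℝ) = Ioc 1 (2 * Y) ∪ Ioi (2 * Y) := (Ioc_union_Ioi_eq_Ioi (by linarith)).symm
  have hpi : IntervalIntegrable (fun y : ℝ => y ^ (-(2 * β))) volume 1 (2 * Y) := by
    refine ContinuousOn.intervalIntegrable ?_
    rw [uIcc_of_le (by linarith)]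
    intro y hy
    exact (Real.continuousAt_rpow_const y _ (Or.inl (by linarith [hy.1]))).continuousWithinAt
  refine ⟨by rw [hu]; exact hi1.union hi2, ?_⟩
  rw [hu, setIntegral_union (Ioc_disjoint_Ioi le_rfl) measurableSet_Ioi hi1 hi2,
    setIntegral_congr_fun measurableSet_Ioi hzero, integral_zero, add_zero,
    ← intervalIntegral.integral_of_le (by linarith)]
  have h4 : ∫ y in (1 : ℝ)..(2 * Y), ‖KK ρ Y y‖ ^ 2 * y ^ 2 ≤ ∫ y in (1 : ℝ)..(2 * Y), D ^ 2 * y ^ (-(2 * β)) := by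
    refine intervalIntegral.integral_mono_on (by linarith) ?_ (hpi.const_mul _) fun y hy => hpt y hy.1
    exact (intervalIntegrable_iff_integrableOn_Ioc_of_le (by linarith)).2 hi1
  refine h4.trans ?_
  rw [intervalIntegral.integral_const_mul, integral_rpow (Or.inl (by linarith)), Real.one_rpow,
    show -(2 * β) + 1 = 1 - 2 * β by ring, Real.mul_rpow (by norm_num) hY0.le, mul_assoc]
  refine mul_le_mul_of_nonneg_left ?_ (by positivity)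
  rw [div_mul_eq_mul_div, div_le_div_iff_of_pos_right hb]
  linarith

/-- near orthogonality -/
lemma orth (O : LFn) {ρ : ℂ} (hρ : O.L ρ = 0) {δ : ℝ} (hδ : 0 < δ) : ∃ C : ℝ, 0 < C ∧ ∀ N n : ℕ, 1 ≤ n → n ≤ N →
    ‖∑ m ∈ Finset.Icc 1 ⌊2 * (N : ℝ) ^ (1 + δ)⌋₊, O.lam m * PP ρ ((N : ℝ) ^ (1 + δ)) ((n : ℝ) * m)‖ ≤
      C * (N : ℝ) ^ (-6 : ℝ) := by
  obtain ⟨B, hB⟩ : ∃ B : ℝ, B = (6 + |ρ.re|) / δ := ⟨_, rfl⟩
  obtain ⟨C, hC0, h⟩ := vo O B ‖ρ‖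
  refine ⟨C, hC0, fun N n h1 h2 => ?_⟩
  have hn0 : (0 : ℝ) < n := by exact_mod_cast h1
  have hn1 : (1 : ℝ) ≤ n := by exact_mod_cast h1
  have hnN : (n : ℝ) ≤ N := by exact_mod_cast h2
  have hN1 : (1 : ℝ) ≤ N := hn1.trans hnN
  have hN0 : (0 : ℝ) < N := by linarith
  obtain ⟨Y, hY⟩ : ∃ Y : ℝ, Y = (N : ℝ) ^ (1 + δ) := ⟨_, rfl⟩
  rw [← hY]
  have hYN : Y = N * (N : ℝ) ^ δ := by rw [hY, Real.rpow_add hN0, Real.rpow_one]
  have hNδ : 1 ≤ (N : ℝ) ^ δ := Real.one_le_rpow hN1 hδ.le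
  have hY0 : 0 < Y := by rw [hYN]; positivity
  have hX : (N : ℝ) ^ δ ≤ Y / n := by
    rw [le_div_iff₀ hn0, hYN]
    nlinarith
  have hX1 : 1 ≤ Y / n := hNδ.trans hX
  have h3 := h ρ le_rfl (Y / n) hX1
  rw [hρ, sub_zero] at h3
  have e1 : ∀ m ∈ Finset.Icc 1 ⌊2 * Y⌋₊, O.lam m * PP ρ Y ((n : ℝ) * m) =
      (n : ℂ) ^ (-ρ) * (O.lam m * (m : ℂ) ^ (-ρ) * ((Hc (m / (Y / n)) : ℝ) : ℂ)) := by
    intro m _
    unfold PP
    have e2 : (n : ℝ) * m / Y = m / (Y / n) := by field_simp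
    have e3 : (((n : ℝ) * m : ℝ) : ℂ) ^ (-ρ) = (n : ℂ) ^ (-ρ) * (m : ℂ) ^ (-ρ) := by
      rw [Complex.ofReal_mul, Complex.mul_cpow_ofReal_nonneg hn0.le (Nat.cast_nonneg m)]
      norm_cast
    rw [e2, e3]
    unfold hC
    ring
  have e4 : ∑ m ∈ Finset.Icc 1 ⌊2 * Y⌋₊, O.lam m * (m : ℂ) ^ (-ρ) * ((Hc (m / (Y / n)) : ℝ) : ℂ) =
      ∑ m ∈ Finset.Icc 1 ⌊2 * (Y / n)⌋₊, O.lam m * (m : ℂ) ^ (-ρ) * ((Hc (m / (Y / n)) : ℝ) : ℂ) := by
    refine (Finset.sum_subset ?_ ?_).symm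
    · refine Finset.Icc_subset_Icc le_rfl (Nat.floor_mono ?_)
      have : Y / n ≤ Y := div_le_self hY0.le hn1
      linarith
    · intro m hm hm'
      rw [Finset.mem_Icc] at hm hm'
      have h4 : 2 * (Y / n) < m := by
        rw [← Nat.floor_lt (by positivity)]
        omega
      have h5 : hC (m / (Y / n)) = 0 := hC_hi _ (by rw [le_div_iff₀ (by positivity)]; exact h4.le)
      unfold hC at h5
      rw [h5, mul_zero]
  rw [Finset.sum_congr rfl e1, ← Finset.mul_sum, e4, norm_mul]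
  have h6 : ‖(n : ℂ) ^ (-ρ)‖ ≤ (N : ℝ) ^ |ρ.re| := by
    rw [Complex.norm_natCast_cpow_of_pos h1, neg_re]
    calc (n : ℝ) ^ (-ρ.re) ≤ (n : ℝ) ^ |ρ.re| := Real.rpow_le_rpow_of_exponent_le hn1 (neg_le_abs _)
      _ ≤ _ := Real.rpow_le_rpow hn0.le hnN (abs_nonneg _)
  have h7 : (Y / n) ^ (-B) ≤ (N : ℝ) ^ (-(6 + |ρ.re|)) := by
    have hB0 : 0 ≤ B := by rw [hB]; positivity
    calc (Y / n) ^ (-B) ≤ ((N : ℝ) ^ δ) ^ (-B) :=
          Real.rpow_le_rpow_of_nonpos (by positivity) hX (by linarith)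
      _ = (N : ℝ) ^ (-(6 + |ρ.re|)) := by
          rw [← Real.rpow_mul hN0.le, hB]
          congr 1
          field_simp
  calc ‖(n : ℂ) ^ (-ρ)‖ * _ ≤ (N : ℝ) ^ |ρ.re| * (C * (Y / n) ^ (-B)) := by gcongr
    _ ≤ (N : ℝ) ^ |ρ.re| * (C * (N : ℝ) ^ (-(6 + |ρ.re|))) := by gcongr
    _ = C * ((N : ℝ) ^ |ρ.re| * (N : ℝ) ^ (-(6 + |ρ.re|))) := by ring
    _ = C * (N : ℝ) ^ (-6 : ℝ) := by
        rw [← Real.rpow_add hN0]
        congr 2
        ring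

/-- extension of the coefficients by zero -/
lemma CC_ext (O : LFn) {N N' : ℕ} (h : N ≤ N') (a : ℕ → ℂ) :
    CC O N a = CC O N' (fun n => if n ≤ N then a n else 0) := by
  funext y
  unfold CC cc
  congr 1
  refine Finset.sum_congr rfl fun k _ => Finset.sum_congr rfl fun p _ => ?_
  congr 1
  by_cases h1 : p.1 ≤ N
  · simp [h1, h1.trans h]
  · simp [h1]

/-- **The lower bound.** -/
theorem low_rate (O : LFn) {ρ : ℂ} (hρ : O.L ρ = 0) {β : ℝ} (h1 : β ≤ ρ.re) (h2 : β < 1 / 2) {δ : ℝ} (hδ : 0 < δ) :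
    ∃ c : ℝ, 0 < c ∧ ∀ (N : ℕ) (a : ℕ → ℂ), 1 ≤ N →
      IntegrableOn (fun y : ℝ => ‖CC O N a y‖ ^ 2 / y ^ 2) (Ioi 1) →
      c * (N : ℝ) ^ (-((1 + δ) * (1 - 2 * β))) ≤ JE O N a := by
  obtain ⟨D, hD, hK⟩ := KK_L2 ρ h1 h2
  obtain ⟨C, hC0, ho⟩ := orth O hρ hδ
  obtain ⟨C3, hC3, hco⟩ := co O
  have hb : 0 < 1 - 2 * β := by linarith
  -- large N
  have key : ∀ (N : ℕ) (a : ℕ → ℂ), 1 ≤ N → 4 * (C * C3) ≤ N →
      IntegrableOn (fun y : ℝ => ‖CC O N a y‖ ^ 2 / y ^ 2) (Ioi 1) → JE O N a < 1 →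
      1 / (4 * D) * (N : ℝ) ^ (-((1 + δ) * (1 - 2 * β))) ≤ JE O N a := by
    intro N a hN hN2 hint hJ1
    have hN1 : (1 : ℝ) ≤ N := by exact_mod_cast hN
    have hN0 : (0 : ℝ) < N := by linarith
    obtain ⟨Y, hY⟩ : ∃ Y : ℝ, Y = (N : ℝ) ^ (1 + δ) := ⟨_, rfl⟩
    have hY1 : 1 ≤ Y := by rw [hY]; exact Real.one_le_rpow hN1 (by linarith)
    have hY0 : 0 < Y := by linarith
    obtain ⟨hk1, hk2⟩ := hK Y hY1
    obtain ⟨hp1, hp2⟩ := pairG O N a (P := PP ρ Y) (K := KK ρ Y) (Y := 2 * Y) (by linarith)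
      (fun y hy => PP_deriv ρ hY0 hy) (KK_cont ρ Y) (fun y hy => PP_zero ρ hY0 hy) (fun y hy => KK_zero ρ hY0 hy)
    have hcs := pairG_le O N a hint hk1 hp1
    have hP1 : PP ρ Y 1 = 1 := by
      unfold PP
      rw [hC_lo _ (by rw [div_le_one hY0]; exact hY1)]
      simp
    rw [hP1] at hp2
    obtain ⟨R, hR⟩ : ∃ R : ℂ, R = ∑ n ∈ Finset.Icc 1 N, a n * ∑ m ∈ Finset.Icc 1 ⌊2 * Y⌋₊,
      O.lam m * PP ρ Y ((n : ℝ) * m) := ⟨_, rfl⟩
    rw [← hR] at hp2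
    have hsq1 : Real.sqrt (JE O N a) ≤ 1 := by
      have := Real.sqrt_le_sqrt hJ1.le
      rwa [Real.sqrt_one] at this
    have hRn : ‖R‖ ≤ 1 / 2 := by
      have e1 : ∀ n ∈ Finset.Icc 1 N, ‖a n * ∑ m ∈ Finset.Icc 1 ⌊2 * Y⌋₊, O.lam m * PP ρ Y ((n : ℝ) * m)‖ ≤
          ‖a n‖ * (C * (N : ℝ) ^ (-6 : ℝ)) := by
        intro n hn
        rw [Finset.mem_Icc] at hn
        rw [norm_mul, hY]
        exact mul_le_mul_of_nonneg_left (ho N n hn.1 hn.2) (norm_nonneg _)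
      rw [hR]
      refine (norm_sum_le _ _).trans ((Finset.sum_le_sum e1).trans ?_)
      rw [← Finset.sum_mul]
      have e2 := hco N a hN hint
      have e3 : (N : ℝ) ^ 4 * (N : ℝ) ^ (-6 : ℝ) ≤ 1 / N := by
        rw [← Real.rpow_natCast, ← Real.rpow_add hN0, one_div, ← Real.rpow_neg_one]
        refine Real.rpow_le_rpow_of_exponent_le hN1 ?_
        push_cast
        norm_num
      have e4 : (∑ n ∈ Finset.Icc 1 N, ‖a n‖) ≤ C3 * (N : ℝ) ^ 4 * 2 := by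
        refine e2.trans ?_
        have : 1 + Real.sqrt (∫ y in Ioi (1 : ℝ), ‖CC O N a y‖ ^ 2 / y ^ 2) ≤ 2 := by
          have : Real.sqrt (∫ y in Ioi (1 : ℝ), ‖CC O N a y‖ ^ 2 / y ^ 2) ≤ 1 := hsq1
          linarith
        exact mul_le_mul_of_nonneg_left this (by positivity)
      calc (∑ n ∈ Finset.Icc 1 N, ‖a n‖) * (C * (N : ℝ) ^ (-6 : ℝ)) ≤
            (C3 * (N : ℝ) ^ 4 * 2) * (C * (N : ℝ) ^ (-6 : ℝ)) := mul_le_mul_of_nonneg_right e4 (by positivity)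
        _ = 2 * (C * C3) * ((N : ℝ) ^ 4 * (N : ℝ) ^ (-6 : ℝ)) := by ring
        _ ≤ 2 * (C * C3) * (1 / N) := mul_le_mul_of_nonneg_left e3 (by positivity)
        _ ≤ 1 / 2 := by
            rw [mul_one_div, div_le_iff₀ hN0]
            linarith
    have hval : 1 / 2 ≤ ‖∫ y in Ioi (1 : ℝ), CC O N a y * KK ρ Y y‖ := by
      rw [hp2]
      have h3 : ‖(1 : ℂ)‖ ≤ ‖(1 : ℂ) - R‖ + ‖R‖ := by
        have := norm_add_le ((1 : ℂ) - R) R
        rwa [sub_add_cancel] at this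
      rw [norm_one] at h3
      linarith
    have h4 : 1 / 4 ≤ JE O N a * (D * Y ^ (1 - 2 * β)) := by
      calc (1 / 4 : ℝ) = (1 / 2) ^ 2 := by norm_num
        _ ≤ ‖∫ y in Ioi (1 : ℝ), CC O N a y * KK ρ Y y‖ ^ 2 := pow_le_pow_left₀ (by norm_num) hval 2
        _ ≤ _ := hcs
        _ ≤ _ := mul_le_mul_of_nonneg_left hk2 (JE_nonneg O N a)
    have h5 : Y ^ (1 - 2 * β) = (N : ℝ) ^ ((1 + δ) * (1 - 2 * β)) := by rw [hY, ← Real.rpow_mul hN0.le]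
    rw [h5] at h4
    rw [Real.rpow_neg hN0.le]
    have hpos : 0 < (N : ℝ) ^ ((1 + δ) * (1 - 2 * β)) := by positivity
    rw [← div_eq_mul_inv, div_le_iff₀ hpos, div_le_iff₀ (by positivity)]
    nlinarith
  obtain ⟨N0, hN0⟩ := exists_nat_ge (4 * (C * C3))
  obtain ⟨N1, hN1⟩ : ∃ N1 : ℕ, N1 = max 1 N0 := ⟨_, rfl⟩
  have hN1' : (1 : ℝ) ≤ N1 := by rw [hN1]; exact_mod_cast le_max_left _ _
  obtain ⟨E, hE⟩ : ∃ E : ℝ, E = (1 + δ) * (1 - 2 * β) := ⟨_, rfl⟩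
  have hE0 : 0 < E := by rw [hE]; positivity
  rw [← hE] at key ⊢
  obtain ⟨c, hc⟩ : ∃ c : ℝ, c = min 1 (1 / (4 * D)) * (N1 : ℝ) ^ (-E) := ⟨_, rfl⟩
  have hm0 : 0 < min 1 (1 / (4 * D)) := lt_min one_pos (by positivity)
  have hN1E : (N1 : ℝ) ^ (-E) ≤ 1 := Real.rpow_le_one_of_one_le_of_nonpos hN1' (by linarith)
  have hN1E0 : 0 < (N1 : ℝ) ^ (-E) := by positivity
  refine ⟨c, by rw [hc]; positivity, fun N a hN hint => ?_⟩
  have hNr : (1 : ℝ) ≤ N := by exact_mod_cast hN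
  have hNE : (N : ℝ) ^ (-E) ≤ 1 := Real.rpow_le_one_of_one_le_of_nonpos hNr (by linarith)
  have hNE0 : 0 < (N : ℝ) ^ (-E) := by positivity
  rcases le_or_gt 1 (JE O N a) with h3 | h3
  · refine le_trans ?_ h3
    have : c ≤ 1 := by
      rw [hc]
      have := min_le_left 1 (1 / (4 * D))
      nlinarith
    have hc0 : 0 < c := by rw [hc]; positivity
    nlinarith
  · rcases le_total N1 N with h4 | h4
    · have h5 : 4 * (C * C3) ≤ (N : ℝ) := by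
        refine hN0.trans ?_
        have : N0 ≤ N := (le_max_right 1 N0).trans (hN1 ▸ h4)
        exact_mod_cast this
      refine le_trans ?_ (key N a hN h5 hint h3)
      refine mul_le_mul_of_nonneg_right ?_ hNE0.le
      rw [hc]
      calc min 1 (1 / (4 * D)) * (N1 : ℝ) ^ (-E) ≤ min 1 (1 / (4 * D)) * 1 := by gcongr
        _ ≤ 1 / (4 * D) := by rw [mul_one]; exact min_le_right _ _
    · have e := CC_ext O h4 a
      have e2 : JE O N a = JE O N1 (fun n => if n ≤ N then a n else 0) := by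
        unfold JE
        rw [e]
      have h5 : 4 * (C * C3) ≤ (N1 : ℝ) := by
        refine hN0.trans ?_
        rw [hN1]
        exact_mod_cast le_max_right 1 N0
      have h6 := key N1 (fun n => if n ≤ N then a n else 0) (by rw [hN1]; exact le_max_left _ _) h5
        (by rw [e] at hint; exact hint) (by rw [← e2]; exact h3)
      rw [e2]
      refine le_trans ?_ h6
      rw [hc]
      calc min 1 (1 / (4 * D)) * (N1 : ℝ) ^ (-E) * (N : ℝ) ^ (-E) ≤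
            min 1 (1 / (4 * D)) * (N1 : ℝ) ^ (-E) * 1 := by gcongr
        _ ≤ 1 / (4 * D) * (N1 : ℝ) ^ (-E) := by
            rw [mul_one]
            exact mul_le_mul_of_nonneg_right (min_le_right _ _) hN1E0.le

end Pool.Agent.H313.NR
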