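import Pool.Agent.H313.NR.Up
import Pool.Agent.H313.NR.Low

/-!
# The exact polynomial rate of the distances (helper313)
-/

set_option autoImplicit false

namespace Pool.Agent.H313.NR

open Complex MeasureTheory Filter Topology Set
open scoped ENNReal
open Pool.Agent.Q286.GB
open Pool.Agent.Q286.BD (cl)
open Pool.Agent.Q298.GB (JE)

lemma ker_int : Integrable (fun t : ℝ => (1 + |t|) ^ (-(3 / 2) : ℝ)) := by
  have h := integrable_one_add_norm (E := ℝ) (μ := volume) (r := 3 / 2) (by simp; norm_num)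
  exact h

lemma ker_le (t : ℝ) : 1 / (1 / 4 + t ^ 2) ≤ 8 * (1 + |t|) ^ (-2 : ℝ) := by
  have h0 := abs_nonneg t
  have h1 : t ^ 2 = |t| ^ 2 := (sq_abs t).symm
  rw [h1, Real.rpow_neg (by positivity), Real.rpow_two, ← div_eq_mul_inv, div_le_div_iff₀ (by positivity) (by positivity)]
  nlinarith [sq_nonneg (|t| - 1)]

/-- the upper bound -/
theorem up_rate (O : LFn) {θ : ℝ} (hz : ∀ s : ℂ, θ < s.re → O.L s ≠ 0) {κ : ℝ} (hκ : 0 < κ)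
    (hκθ : κ < 1 / 2 - θ) : ∃ C : ℝ, 0 < C ∧ ∀ N : ℕ, 1 ≤ N →
    dN O N ≤ ENNReal.ofReal (C * (N : ℝ) ^ (-(2 * κ))) := by
  obtain ⟨C1, hC1, hlit⟩ := lit O hz (σ := 1 / 2) (η := 1 / 8) (by linarith) (by norm_num)
  obtain ⟨C2, hC2, hmu⟩ := mu_smooth O hz hκ hκθ (η := 1 / 8) (by norm_num)
  obtain ⟨I0, hI0⟩ : ∃ I0 : ℝ, I0 = ∫ t : ℝ, (1 + |t|) ^ (-(3 / 2) : ℝ) := ⟨_, rfl⟩
  have hI00 : 0 ≤ I0 := by
    rw [hI0]
    exact integral_nonneg fun t => by positivity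
  have hpi := Real.pi_pos
  -- a general bound
  have gen : ∀ (N : ℕ) (a : ℕ → ℂ) (K : ℝ), 0 ≤ K → (∀ t : ℝ, lin O N a t ≤ K * (1 + |t|) ^ (-(3 / 2) : ℝ)) →
      dN O N ≤ ENNReal.ofReal (1 / (2 * Real.pi) * (K * I0)) := by
    intro N a K hK h
    unfold dN
    refine (iInf_le _ a).trans ?_
    rw [ENNReal.ofReal_mul (by positivity)]
    refine mul_le_mul_right ?_ _
    rw [hI0, ← integral_const_mul,
      ofReal_integral_eq_lintegral_ofReal (ker_int.const_mul K) (Eventually.of_forall fun t => by positivity)]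
    exact lintegral_mono fun t => ENNReal.ofReal_le_ofReal (h t)
  obtain ⟨K0, hK0⟩ : ∃ K0 : ℝ, K0 = (C1 * C2) ^ 2 * 8 := ⟨_, rfl⟩
  have hK00 : 0 < K0 := by rw [hK0]; positivity
  refine ⟨1 / (2 * Real.pi) * (8 * I0) + 1 / (2 * Real.pi) * (K0 * I0) * 2 ^ (2 * κ) + 1, by positivity,
    fun N hN => ?_⟩
  have hA0 : 0 ≤ 1 / (2 * Real.pi) * (8 * I0) := by positivity
  have hB0 : 0 ≤ 1 / (2 * Real.pi) * (K0 * I0) * 2 ^ (2 * κ) := by positivity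
  rcases eq_or_lt_of_le hN with h1 | h1
  · -- N = 1
    rw [← h1]
    refine (gen 1 0 8 (by norm_num) fun t => ?_).trans (ENNReal.ofReal_le_ofReal ?_)
    · unfold lin
      have e : ‖(1 : ℂ) - O.L (cl t) * ∑ n ∈ Finset.Icc 1 1, (0 : ℕ → ℂ) n * (n : ℂ) ^ (-cl t)‖ ^ 2 = 1 := by simp
      rw [e]
      refine (ker_le t).trans ?_
      refine mul_le_mul_of_nonneg_left ?_ (by norm_num)
      exact Real.rpow_le_rpow_of_exponent_le (by linarith [abs_nonneg t]) (by norm_num)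
    · simp only [Nat.cast_one, Real.one_rpow, mul_one]
      linarith
  · have hN2 : (2 : ℝ) ≤ N := by exact_mod_cast h1
    obtain ⟨X, hX⟩ : ∃ X : ℝ, X = N / 2 := ⟨_, rfl⟩
    have hX1 : 1 ≤ X := by rw [hX]; linarith
    have hX0 : 0 < X := by linarith
    have hfl : ⌊2 * X⌋₊ = N := by
      rw [hX, mul_div_cancel₀ _ (by norm_num : (2 : ℝ) ≠ 0), Nat.floor_natCast]
    have hlin : ∀ t : ℝ, lin O N (fun m => O.mu m * ((Hc (m / X) : ℝ) : ℂ)) t ≤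
        (K0 * X ^ (-(2 * κ))) * (1 + |t|) ^ (-(3 / 2) : ℝ) := by
      intro t
      have h0 := abs_nonneg t
      have h2 := hmu t X hX1
      rw [hfl] at h2
      have h3 := (hlit (cl t) (by simp [cl])).1
      have h4 : (cl t).im = t := by simp [cl]
      rw [h4] at h3
      have hne := hz (cl t) (by simp [cl]; linarith)
      unfold lin
      have e1 : ∑ n ∈ Finset.Icc 1 N, O.mu n * ((Hc (n / X) : ℝ) : ℂ) * (n : ℂ) ^ (-cl t) =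
          ∑ m ∈ Finset.Icc 1 N, O.mu m * (m : ℂ) ^ (-cl t) * ((Hc (m / X) : ℝ) : ℂ) :=
        Finset.sum_congr rfl fun m _ => by ring
      rw [e1]
      obtain ⟨A, hA⟩ : ∃ A : ℂ, A = ∑ m ∈ Finset.Icc 1 N, O.mu m * (m : ℂ) ^ (-cl t) * ((Hc (m / X) : ℝ) : ℂ) :=
        ⟨_, rfl⟩
      rw [← hA] at h2 ⊢
      have e2 : ‖1 - O.L (cl t) * A‖ = ‖O.L (cl t)‖ * ‖A - (O.L (cl t))⁻¹‖ := by
        rw [← norm_mul, mul_sub, mul_inv_cancel₀ hne, norm_sub_rev]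
      have e3 : ‖1 - O.L (cl t) * A‖ ≤ C1 * C2 * ((1 + |t|) ^ (1 / 4 : ℝ) * X ^ (-κ)) := by
        rw [e2]
        calc ‖O.L (cl t)‖ * ‖A - (O.L (cl t))⁻¹‖ ≤ (C1 * (1 + |t|) ^ (1 / 8 : ℝ)) * (C2 * (1 + |t|) ^ (1 / 8 : ℝ) * X ^ (-κ)) :=
              mul_le_mul h3 h2 (norm_nonneg _) (by positivity)
          _ = C1 * C2 * (((1 + |t|) ^ (1 / 8 : ℝ) * (1 + |t|) ^ (1 / 8 : ℝ)) * X ^ (-κ)) := by ring
          _ = _ := by
              rw [← Real.rpow_add (by positivity)]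
              norm_num
      have e4 : ((1 + |t|) ^ (1 / 4 : ℝ) * X ^ (-κ)) ^ 2 = (1 + |t|) ^ (1 / 2 : ℝ) * X ^ (-(2 * κ)) := by
        rw [mul_pow, ← Real.rpow_natCast, ← Real.rpow_mul (by positivity), ← Real.rpow_natCast, ← Real.rpow_mul hX0.le]
        congr 2
        · norm_num
        · push_cast
          ring
      calc ‖1 - O.L (cl t) * A‖ ^ 2 / (1 / 4 + t ^ 2) = ‖1 - O.L (cl t) * A‖ ^ 2 * (1 / (1 / 4 + t ^ 2)) := by ring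
        _ ≤ (C1 * C2 * ((1 + |t|) ^ (1 / 4 : ℝ) * X ^ (-κ))) ^ 2 * (8 * (1 + |t|) ^ (-2 : ℝ)) := by
            have := ker_le t
            gcongr
        _ = (C1 * C2) ^ 2 * 8 * X ^ (-(2 * κ)) * ((1 + |t|) ^ (1 / 2 : ℝ) * (1 + |t|) ^ (-2 : ℝ)) := by
            rw [mul_pow, e4]
            ring
        _ = _ := by
            rw [← Real.rpow_add (by positivity), hK0]
            norm_num
    have h5 := gen N _ (K0 * X ^ (-(2 * κ))) (by positivity) hlin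
    refine h5.trans (ENNReal.ofReal_le_ofReal ?_)
    have hN0 : (0 : ℝ) < N := by linarith
    have e5 : X ^ (-(2 * κ)) = 2 ^ (2 * κ) * (N : ℝ) ^ (-(2 * κ)) := by
      rw [hX, Real.div_rpow hN0.le (by norm_num), Real.rpow_neg (by norm_num : (0 : ℝ) ≤ 2), div_inv_eq_mul, mul_comm]
    rw [e5]
    have hNp : 0 < (N : ℝ) ^ (-(2 * κ)) := by positivity
    calc 1 / (2 * Real.pi) * (K0 * (2 ^ (2 * κ) * (N : ℝ) ^ (-(2 * κ))) * I0) =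
          (1 / (2 * Real.pi) * (K0 * I0) * 2 ^ (2 * κ)) * (N : ℝ) ^ (-(2 * κ)) := by ring
      _ ≤ _ := mul_le_mul_of_nonneg_right (by linarith) hNp.le

/-- the lower bound for the infimum -/
theorem low_eN (O : LFn) {ρ : ℂ} (hρ : O.L ρ = 0) {β : ℝ} (h1 : β ≤ ρ.re) (h2 : β < 1 / 2) {δ : ℝ} (hδ : 0 < δ) :
    ∃ c : ℝ, 0 < c ∧ ∀ N : ℕ, 1 ≤ N →
      ENNReal.ofReal (c * (N : ℝ) ^ (-((1 + δ) * (1 - 2 * β)))) ≤ eN O N := by
  obtain ⟨c, hc, h⟩ := low_rate O hρ h1 h2 hδ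
  refine ⟨c, hc, fun N hN => ?_⟩
  unfold eN
  refine le_iInf fun a => ?_
  by_cases htop : ∫⁻ y in Ioi (1 : ℝ), ENNReal.ofReal (‖CC O N a y‖ ^ 2 / y ^ 2) = ⊤
  · rw [htop]
    exact le_top
  · have hint : IntegrableOn (fun y : ℝ => ‖CC O N a y‖ ^ 2 / y ^ 2) (Ioi 1) :=
      int_of_fin (meas_J O N a) (J_nonneg O N a) htop
    rw [← ofReal_integral_eq_lintegral_ofReal hint (Eventually.of_forall (J_nonneg O N a))]
    exact ENNReal.ofReal_le_ofReal (h N a hN hint)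

/-- from bounds along a subsequence to the zeros -/
theorem zeros_of_freq (O : LFn) {θ : ℝ} (hθ : θ < 1 / 2)
    (h : ∀ ε : ℝ, 0 < ε → ∃ᶠ N : ℕ in atTop, eN O N ≤ ENNReal.ofReal ((N : ℝ) ^ (-(1 - 2 * θ) + ε))) :
    ∀ s : ℂ, O.L s = 0 → s.re ≤ θ := by
  intro ρ hρ
  by_contra hlt
  push Not at hlt
  obtain ⟨β, hβ⟩ : ∃ β : ℝ, β = min ρ.re ((1 / 2 + θ) / 2) := ⟨_, rfl⟩
  have hβ1 : β ≤ ρ.re := by rw [hβ]; exact min_le_left _ _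
  have hβ2 : β < 1 / 2 := by rw [hβ]; exact lt_of_le_of_lt (min_le_right _ _) (by linarith)
  have hβ3 : θ < β := by rw [hβ]; exact lt_min hlt (by linarith)
  obtain ⟨g, hg⟩ : ∃ g : ℝ, g = 2 * (β - θ) := ⟨_, rfl⟩
  have hg0 : 0 < g := by rw [hg]; linarith
  have hb : 0 < 1 - 2 * β := by linarith
  obtain ⟨δ, hδ⟩ : ∃ δ : ℝ, δ = g / (3 * (1 - 2 * β)) := ⟨_, rfl⟩
  have hδ0 : 0 < δ := by rw [hδ]; positivity
  have hδ1 : (1 + δ) * (1 - 2 * β) = (1 - 2 * β) + g / 3 := by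
    rw [hδ]
    field_simp
  obtain ⟨c, hc, hlow⟩ := low_eN O hρ hβ1 hβ2 hδ0
  have h1 := h (g / 3) (by positivity)
  have h2 : Tendsto (fun N : ℕ => (N : ℝ) ^ (-(g / 3))) atTop (𝓝 0) :=
    (tendsto_rpow_neg_atTop (by positivity)).comp tendsto_natCast_atTop_atTop
  have h3 : ∀ᶠ N : ℕ in atTop, (N : ℝ) ^ (-(g / 3)) < c := h2.eventually (gt_mem_nhds hc)
  obtain ⟨N, h4, h5, h6⟩ := (h1.and_eventually (h3.and (eventually_ge_atTop 1))).exists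
  have h7 := (hlow N h6).trans h4
  have hN0 : (0 : ℝ) < N := by exact_mod_cast h6
  rw [ENNReal.ofReal_le_ofReal_iff (by positivity), hδ1] at h7
  have h8 : (N : ℝ) ^ (-(1 - 2 * θ) + g / 3) = (N : ℝ) ^ (-(g / 3)) * (N : ℝ) ^ (-((1 - 2 * β) + g / 3)) := by
    rw [← Real.rpow_add hN0]
    congr 1
    rw [hg]
    ring
  rw [h8] at h7
  have h9 := le_of_mul_le_mul_right h7 (by positivity)
  linarith

/-- **The exact rate.** -/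
theorem rate (O : LFn) {θ : ℝ} (hθ : θ < 1 / 2) :
    ((∀ s : ℂ, O.L s = 0 → s.re ≤ θ) ↔ ∀ ε : ℝ, 0 < ε → ∃ C : ℝ, ∀ N : ℕ, 1 ≤ N →
      dN O N ≤ ENNReal.ofReal (C * (N : ℝ) ^ (-(1 - 2 * θ) + ε))) ∧
    ((∀ s : ℂ, O.L s = 0 → s.re ≤ θ) ↔ ∀ ε : ℝ, 0 < ε → ∃ C : ℝ, ∀ N : ℕ, 1 ≤ N →
      eN O N ≤ ENNReal.ofReal (C * (N : ℝ) ^ (-(1 - 2 * θ) + ε))) ∧
    ((∀ s : ℂ, O.L s = 0 → s.re ≤ θ) ↔ ∀ ε : ℝ, 0 < ε → ∃ᶠ N : ℕ in atTop,
      dN O N ≤ ENNReal.ofReal ((N : ℝ) ^ (-(1 - 2 * θ) + ε))) ∧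
    ((∀ s : ℂ, O.L s = 0 → s.re ≤ θ) ↔ ∀ ε : ℝ, 0 < ε → ∃ᶠ N : ℕ in atTop,
      eN O N ≤ ENNReal.ofReal ((N : ℝ) ^ (-(1 - 2 * θ) + ε))) := by
  have hle := eN_le pl O
  have s1 : (∀ s : ℂ, O.L s = 0 → s.re ≤ θ) → ∀ ε : ℝ, 0 < ε → ∃ C : ℝ, ∀ N : ℕ, 1 ≤ N →
      dN O N ≤ ENNReal.ofReal (C * (N : ℝ) ^ (-(1 - 2 * θ) + ε)) := by
    intro hz ε hε
    obtain ⟨κ, hκ⟩ : ∃ κ : ℝ, κ = (1 / 2 - θ) - min (ε / 2) ((1 / 2 - θ) / 2) := ⟨_, rfl⟩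
    have hm1 := min_le_left (ε / 2) ((1 / 2 - θ) / 2)
    have hm2 := min_le_right (ε / 2) ((1 / 2 - θ) / 2)
    have hm3 : 0 < min (ε / 2) ((1 / 2 - θ) / 2) := lt_min (by linarith) (by linarith)
    obtain ⟨C, hC, h⟩ := up_rate O (θ := θ) (fun s hs h0 => absurd (hz s h0) (not_le.2 hs)) (κ := κ)
      (by rw [hκ]; linarith) (by rw [hκ]; linarith)
    refine ⟨C, fun N hN => (h N hN).trans (ENNReal.ofReal_le_ofReal ?_)⟩
    have hN1 : (1 : ℝ) ≤ N := by exact_mod_cast hN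
    refine mul_le_mul_of_nonneg_left (Real.rpow_le_rpow_of_exponent_le hN1 ?_) hC.le
    rw [hκ]
    linarith
  have fr : ∀ (d : ℕ → ℝ≥0∞), (∀ ε : ℝ, 0 < ε → ∃ C : ℝ, ∀ N : ℕ, 1 ≤ N →
      d N ≤ ENNReal.ofReal (C * (N : ℝ) ^ (-(1 - 2 * θ) + ε))) → ∀ ε : ℝ, 0 < ε → ∃ᶠ N : ℕ in atTop,
      d N ≤ ENNReal.ofReal ((N : ℝ) ^ (-(1 - 2 * θ) + ε)) := by
    intro d h ε hε
    obtain ⟨C, hC⟩ := h (ε / 2) (by linarith)
    have h2 : Tendsto (fun N : ℕ => (N : ℝ) ^ (ε / 2)) atTop atTop :=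
      (tendsto_rpow_atTop (by linarith)).comp tendsto_natCast_atTop_atTop
    refine Eventually.frequently ?_
    filter_upwards [h2.eventually_ge_atTop C, eventually_ge_atTop 1] with N h3 h4
    refine (hC N h4).trans (ENNReal.ofReal_le_ofReal ?_)
    have hN0 : (0 : ℝ) < N := by exact_mod_cast h4
    calc C * (N : ℝ) ^ (-(1 - 2 * θ) + ε / 2) ≤ (N : ℝ) ^ (ε / 2) * (N : ℝ) ^ (-(1 - 2 * θ) + ε / 2) := by gcongr
      _ = (N : ℝ) ^ (-(1 - 2 * θ) + ε) := by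
          rw [← Real.rpow_add hN0]
          congr 1
          ring
  have s3 : (∀ ε : ℝ, 0 < ε → ∃ᶠ N : ℕ in atTop, dN O N ≤ ENNReal.ofReal ((N : ℝ) ^ (-(1 - 2 * θ) + ε))) →
      ∀ s : ℂ, O.L s = 0 → s.re ≤ θ := fun h =>
    zeros_of_freq O hθ fun ε hε => (h ε hε).mono fun N hN => (hle N).trans hN
  have s4 := zeros_of_freq O hθ
  have s2 : (∀ s : ℂ, O.L s = 0 → s.re ≤ θ) → ∀ ε : ℝ, 0 < ε → ∃ C : ℝ, ∀ N : ℕ, 1 ≤ N →
      eN O N ≤ ENNReal.ofReal (C * (N : ℝ) ^ (-(1 - 2 * θ) + ε)) := by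
    intro hz ε hε
    obtain ⟨C, h⟩ := s1 hz ε hε
    exact ⟨C, fun N hN => (hle N).trans (h N hN)⟩
  exact ⟨⟨s1, fun h => s3 (fr _ h)⟩, ⟨s2, fun h => s4 (fr _ h)⟩, ⟨fun h => fr _ (s1 h), s3⟩,
    ⟨fun h => fr _ (s2 h), s4⟩⟩

end Pool.Agent.H313.NR
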