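import Pool.Agent.H313.NR.Rate
import Pool.Agent.H313.NP.Dir

/-!
# The exact rate for all standard L-functions on all lines (helper313)
-/

set_option autoImplicit false

namespace Pool.Agent.H313.NR

open Complex MeasureTheory Filter Topology Set
open scoped ENNReal
open Pool.Agent.Q286.GB
open Pool.Agent.Q286.BD (cl)
open Pool.Agent.H313.NP (dist edist SS Data Crit crit crit_dir crit_of dist_eq edist_eq exists_obj prod_gr)

lemma norm_tw (n : ℕ) {h : ℝ} (hh : 0 ≤ h) (z : ℂ) : ‖z * (n : ℂ) ^ (-(h : ℂ))‖ ≤ ‖z‖ * (if n = 0 then 1 else 1) := by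
  rw [ite_self, mul_one, norm_mul]
  rcases Nat.eq_zero_or_pos n with rfl | hn
  · refine mul_le_of_le_one_right (norm_nonneg _) ?_
    rcases eq_or_ne h 0 with h0 | h0
    · rw [h0]; simp
    · rw [Nat.cast_zero, zero_cpow (by simpa using h0), norm_zero]
      exact zero_le_one
  · refine mul_le_of_le_one_right (norm_nonneg _) ?_
    rw [Complex.norm_natCast_cpow_of_pos hn, neg_re, ofReal_re]
    exact Real.rpow_le_one_of_one_le_of_nonpos (by exact_mod_cast hn) (by linarith)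

/-- the shifted object `L(s + h)` -/
noncomputable def shift (O : LFn) (h : ℝ) (hh : 0 ≤ h) : LFn where
  L := fun s => O.L (s + h)
  lam := fun n => O.lam n * (n : ℂ) ^ (-(h : ℂ))
  mu := fun n => O.mu n * (n : ℂ) ^ (-(h : ℂ))
  entire := O.entire.comp (by fun_prop)
  lam_zero := by rw [O.lam_zero, zero_mul]
  mu_zero := by rw [O.mu_zero, zero_mul]
  lam_one := by rw [O.lam_one, Nat.cast_one, one_cpow, mul_one]
  lam_sum := by
    refine Summable.of_nonneg_of_le (fun n => by positivity) (fun n => ?_) O.lam_sum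
    have := norm_tw n hh (O.lam n)
    rw [ite_self, mul_one] at this
    exact mul_le_mul_of_nonneg_right this (by positivity)
  mu_sum := by
    refine Summable.of_nonneg_of_le (fun n => by positivity) (fun n => ?_) O.mu_sum
    have := norm_tw n hh (O.mu n)
    rw [ite_self, mul_one] at this
    exact mul_le_mul_of_nonneg_right this (by positivity)
  inv := by
    intro n hn
    have h1 : ∀ p ∈ n.divisorsAntidiagonal, O.lam p.1 * (p.1 : ℂ) ^ (-(h : ℂ)) * (O.mu p.2 * (p.2 : ℂ) ^ (-(h : ℂ))) =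
        (n : ℂ) ^ (-(h : ℂ)) * (O.lam p.1 * O.mu p.2) := by
      intro p hp
      have h2 := (Nat.mem_divisorsAntidiagonal.1 hp).1
      have h3 : (n : ℂ) ^ (-(h : ℂ)) = (p.1 : ℂ) ^ (-(h : ℂ)) * (p.2 : ℂ) ^ (-(h : ℂ)) := by
        rw [← h2]
        push_cast
        exact Complex.natCast_mul_natCast_cpow p.1 p.2 _
      rw [h3]
      ring
    rw [Finset.sum_congr rfl h1, ← Finset.mul_sum, O.inv n hn]
    split_ifs with h2
    · rw [h2, Nat.cast_one, one_cpow, mul_one]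
    · rw [mul_zero]
  ser := by
    intro s hs
    refine (O.ser (s + h) (by rw [add_re, ofReal_re]; linarith)).congr_fun ?_
    intro n
    rcases Nat.eq_zero_or_pos n with rfl | hn
    · rw [O.lam_zero]
      simp
    · have hn0 : (n : ℂ) ≠ 0 := by exact_mod_cast hn.ne'
      rw [mul_assoc, ← Complex.cpow_add _ _ hn0]
      congr 2
      ring
  grow := by
    intro B
    obtain ⟨C, K, hC, hK, hg⟩ := O.grow B
    refine ⟨C * (1 + h) ^ K, K, by positivity, hK, fun s hs => ?_⟩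
    refine (hg (s + h) (by rw [add_re, ofReal_re]; linarith)).trans ?_
    rw [mul_assoc, ← Real.mul_rpow (by linarith) (by positivity)]
    refine mul_le_mul_of_nonneg_left (Real.rpow_le_rpow (by positivity) ?_ hK) hC.le
    have h1 := norm_add_le s (h : ℂ)
    rw [Complex.norm_real, Real.norm_eq_abs, abs_of_nonneg hh] at h1
    have h2 := norm_nonneg s
    nlinarith

/-- the rates, for a function `L` with coefficients `lam` and completed function `Λ` -/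
structure Rates (L : ℂ → ℂ) (lam : ℕ → ℂ) (Λ : ℂ → ℂ) : Prop where
  le : ∀ h : ℝ, 0 ≤ h → ∀ n : ℕ,
    edist (fun n : ℕ => lam n * (n : ℂ) ^ (-(h : ℂ))) n ≤ dist (fun s => L (s + h)) n
  lower : ∀ ρ : ℂ, Λ ρ = 0 → ∀ h : ℝ, 0 ≤ h → ∀ ε : ℝ, 0 < ε → ∃ c : ℝ, 0 < c ∧ ∀ n : ℕ, 1 ≤ n →
    ENNReal.ofReal (c * (n : ℝ) ^ (-(2 * max (1 / 2 + h - ρ.re) 0) - ε)) ≤
      edist (fun n : ℕ => lam n * (n : ℂ) ^ (-(h : ℂ))) n
  d_all : ∀ h θ : ℝ, 1 / 2 ≤ θ → θ < 1 / 2 + h → ((∀ s : ℂ, Λ s = 0 → s.re ≤ θ) ↔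
    ∀ ε : ℝ, 0 < ε → ∃ C : ℝ, ∀ n : ℕ, 1 ≤ n →
      dist (fun s => L (s + h)) n ≤ ENNReal.ofReal (C * (n : ℝ) ^ (-(2 * (1 / 2 + h - θ)) + ε)))
  e_all : ∀ h θ : ℝ, 1 / 2 ≤ θ → θ < 1 / 2 + h → ((∀ s : ℂ, Λ s = 0 → s.re ≤ θ) ↔
    ∀ ε : ℝ, 0 < ε → ∃ C : ℝ, ∀ n : ℕ, 1 ≤ n →
      edist (fun n : ℕ => lam n * (n : ℂ) ^ (-(h : ℂ))) n ≤
        ENNReal.ofReal (C * (n : ℝ) ^ (-(2 * (1 / 2 + h - θ)) + ε)))
  d_freq : ∀ h θ : ℝ, 1 / 2 ≤ θ → θ < 1 / 2 + h → ((∀ s : ℂ, Λ s = 0 → s.re ≤ θ) ↔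
    ∀ ε : ℝ, 0 < ε → ∃ᶠ n : ℕ in atTop,
      dist (fun s => L (s + h)) n ≤ ENNReal.ofReal ((n : ℝ) ^ (-(2 * (1 / 2 + h - θ)) + ε)))
  e_freq : ∀ h θ : ℝ, 1 / 2 ≤ θ → θ < 1 / 2 + h → ((∀ s : ℂ, Λ s = 0 → s.re ≤ θ) ↔
    ∀ ε : ℝ, 0 < ε → ∃ᶠ n : ℕ in atTop,
      edist (fun n : ℕ => lam n * (n : ℂ) ^ (-(h : ℂ))) n ≤
        ENNReal.ofReal ((n : ℝ) ^ (-(2 * (1 / 2 + h - θ)) + ε)))

lemma dist_sh (O : LFn) (h : ℝ) (hh : 0 ≤ h) : dist (fun s => O.L (s + h)) = dN (shift O h hh) := by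
  funext n
  rw [Pool.Agent.H313.NP.dist_eq]
  exact dd_eq (shift O h hh) n

lemma edist_sh (O : LFn) (h : ℝ) (hh : 0 ≤ h) :
    edist (fun n : ℕ => O.lam n * (n : ℂ) ^ (-(h : ℂ))) = eN (shift O h hh) := by
  funext n
  rw [edist_eq (by rw [O.lam_zero, zero_mul])]
  exact ee_eq (shift O h hh) n

theorem rates_of (O : LFn) {Λ : ℂ → ℂ} (h1 : ∀ s : ℂ, Λ s = 0 → O.L s = 0)
    (h2 : ∀ s : ℂ, 1 / 2 ≤ s.re → O.L s = 0 → Λ s = 0) : Rates O.L O.lam Λ := by
  have key : ∀ (h θ : ℝ) (hh : 0 ≤ h), 1 / 2 ≤ θ → ((∀ s : ℂ, Λ s = 0 → s.re ≤ θ) ↔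
      ∀ s : ℂ, (shift O h hh).L s = 0 → s.re ≤ θ - h) := by
    intro h θ hh hθ
    constructor
    · intro hz s hs
      have hs' : O.L (s + h) = 0 := hs
      by_contra hlt
      push Not at hlt
      have h3 : θ < (s + h).re := by rw [add_re, ofReal_re]; linarith
      exact absurd (hz _ (h2 _ (by linarith) hs')) (not_le.2 h3)
    · intro hz s hs
      have h3 : (shift O h hh).L (s - h) = 0 := by
        show O.L (s - h + h) = 0
        rw [sub_add_cancel]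
        exact h1 s hs
      have h4 := hz _ h3
      rw [sub_re, ofReal_re] at h4
      linarith
  have ex : ∀ h θ : ℝ, -(1 - 2 * (θ - h)) = -(2 * (1 / 2 + h - θ)) := fun h θ => by ring
  refine ⟨fun h hh n => ?_, fun ρ hρ h hh ε hε => ?_, fun h θ hθ hh => ?_, fun h θ hθ hh => ?_,
    fun h θ hθ hh => ?_, fun h θ hθ hh => ?_⟩
  · rw [dist_sh O h hh, edist_sh O h hh]
    exact eN_le pl _ n
  · rw [edist_sh O h hh]
    have h3 : (shift O h hh).L (ρ - h) = 0 := by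
      show O.L (ρ - h + h) = 0
      rw [sub_add_cancel]
      exact h1 ρ hρ
    have hre : (ρ - h).re = ρ.re - h := by rw [sub_re, ofReal_re]
    rcases lt_or_ge 0 (1 / 2 + h - ρ.re) with h4 | h4
    · obtain ⟨x, hx⟩ : ∃ x : ℝ, x = 1 / 2 + h - ρ.re := ⟨_, rfl⟩
      rw [← hx] at h4 ⊢
      obtain ⟨c, hc, hlow⟩ := low_eN (shift O h hh) h3 (β := ρ.re - h) (by rw [hre]) (by linarith)
        (δ := ε / (2 * x + 1)) (by positivity)
      refine ⟨c, hc, fun n hn => le_trans (ENNReal.ofReal_le_ofReal ?_) (hlow n hn)⟩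
      refine mul_le_mul_of_nonneg_left (Real.rpow_le_rpow_of_exponent_le (by exact_mod_cast hn) ?_) hc.le
      rw [max_eq_left h4.le]
      have e1 : 1 - 2 * (ρ.re - h) = 2 * x := by rw [hx]; ring
      rw [e1]
      have e2 : ε / (2 * x + 1) * (2 * x) ≤ ε := by
        rw [div_mul_eq_mul_div, div_le_iff₀ (by positivity)]
        nlinarith
      nlinarith
    · obtain ⟨c, hc, hlow⟩ := low_eN (shift O h hh) h3 (β := 1 / 2 - ε / 4) (by rw [hre]; linarith) (by linarith)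
        (δ := 1) one_pos
      refine ⟨c, hc, fun n hn => le_trans (ENNReal.ofReal_le_ofReal ?_) (hlow n hn)⟩
      refine mul_le_mul_of_nonneg_left (Real.rpow_le_rpow_of_exponent_le (by exact_mod_cast hn) ?_) hc.le
      rw [max_eq_right h4]
      linarith
  · have hh0 : 0 ≤ h := by linarith
    rw [key h θ hh0 hθ, dist_sh O h hh0]
    have := (rate (shift O h hh0) (θ := θ - h) (by linarith)).1
    rwa [ex] at this
  · have hh0 : 0 ≤ h := by linarith
    rw [key h θ hh0 hθ, edist_sh O h hh0]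
    have := (rate (shift O h hh0) (θ := θ - h) (by linarith)).2.1
    rwa [ex] at this
  · have hh0 : 0 ≤ h := by linarith
    rw [key h θ hh0 hθ, dist_sh O h hh0]
    have := (rate (shift O h hh0) (θ := θ - h) (by linarith)).2.2.1
    rwa [ex] at this
  · have hh0 : 0 ≤ h := by linarith
    rw [key h θ hh0 hθ, edist_sh O h hh0]
    have := (rate (shift O h hh0) (θ := θ - h) (by linarith)).2.2.2
    rwa [ex] at this

section

variable {m : ℕ} {N : ℝ} {μ : Fin m → ℂ} {α : Fin m → ℕ → ℂ} {ε : ℂ} {Λ : ℂ → ℂ}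

/-- the rates for every standard L-function, for any sequence of coefficients -/
theorem rates (d : Data N μ α ε Λ) {lam : ℕ → ℂ} (h0 : lam 0 = 0)
    (hs : ∀ s : ℂ, 2 ≤ s.re → HasSum (fun n : ℕ => lam n * (n : ℂ) ^ (-s)) (LL μ Λ s)) : Rates (LL μ Λ) lam Λ := by
  obtain ⟨-, O, hL, -, hser⟩ := exists_obj d
  have hlam : lam = O.lam := IsCo.unique ⟨h0, hs⟩ ⟨O.lam_zero, hser⟩
  rw [hlam, ← hL]
  refine rates_of O.toLFn (fun s h => ?_) fun s h1 h2 => ?_
  · rw [hL]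
    unfold LL
    rw [h, zero_mul]
  · rw [hL] at h2
    unfold LL at h2
    refine (mul_eq_zero.1 h2).resolve_right ?_
    rw [Finset.prod_inv_distrib]
    exact inv_ne_zero (prod_gr d.re_lt h1)

/-- criteria and rates -/
theorem both (d : Data N μ α ε Λ) : Differentiable ℂ (LL μ Λ) ∧ ∃ lam : ℕ → ℂ, lam 0 = 0 ∧
    (∀ s : ℂ, 2 ≤ s.re → HasSum (fun n : ℕ => lam n * (n : ℂ) ^ (-s)) (LL μ Λ s)) ∧
    Crit (LL μ Λ) lam Λ (Pool.Agent.H313.NP.kap N μ Λ) ∧ Rates (LL μ Λ) lam Λ := by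
  obtain ⟨h1, lam, h2, h3, h4⟩ := crit d
  exact ⟨h1, lam, h2, h3, h4, rates d h2 h3⟩

end

section

open DirichletCharacter

variable {q : ℕ} [NeZero q] {χ : DirichletCharacter ℂ q}

theorem rates_dir (hq : 1 < q) (hχ : χ.IsPrimitive) :
    Rates (LFunction χ) (fun n : ℕ => χ (n : ZMod q)) (completedLFunction χ) := by
  have h0 : χ (((0 : ℕ)) : ZMod q) = 0 := by
    rw [Nat.cast_zero]
    exact χ.map_zero' (by omega)
  have h := rates (Pool.Agent.H313.NP.data_dir hq hχ) (lam := fun n : ℕ => χ (n : ZMod q)) h0 (fun s hs => ?_)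
  · rwa [Pool.Agent.H313.NP.LL_dir hq] at h
  · rw [Pool.Agent.H313.NP.LL_dir hq, LFunction_eq_LSeries χ (by linarith)]
    have h1 : LSeriesSummable (fun n : ℕ => χ (n : ZMod q)) s := LSeriesSummable_of_one_lt_re χ (by linarith)
    have h2 := h1.hasSum
    rw [term_eq h0] at h2
    unfold LSeries
    rw [term_eq h0]
    exact h2

end

end Pool.Agent.H313.NR
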