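import Pool.Agent.H313.NR.Lit
import Pool.Graph.R_pool_sql_team_seeded_3997aac3.Q286.GB.All

/-!
# The upper bound for the distance on the line in a zero-free half-plane (helper313)
-/

set_option autoImplicit false

namespace Pool.Agent.H313.NR

open Complex MeasureTheory Filter Topology Set
open Pool.Agent.Q286.GB
open Pool.Agent.Q286.BD (cl)
open Pool.Agent.Q151.GB (hC hC_smooth hC_lo hC_hi cp inv_h xm_int NN NN_diff NN_eq NN_decay const_eq)

/-- the Mellin integral of a smoothed Dirichlet series -/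
theorem sum_eq {c : ℕ → ℂ} {G : ℂ → ℂ} (h0 : c 0 = 0) (hs0 : Summable (fun n : ℕ => ‖c n‖ * (n : ℝ) ^ (-2 : ℝ)))
    (hser : ∀ s : ℂ, 2 ≤ s.re → HasSum (fun n : ℕ => c n * (n : ℂ) ^ (-s)) (G s))
    {s : ℂ} {b X : ℝ} (hc : 1 ≤ b) (hs : 2 ≤ s.re + b) (hX : 0 < X) :
    2 * Real.pi * ∑ m ∈ Finset.Icc 1 ⌊2 * X⌋₊, c m * (m : ℂ) ^ (-s) * ((Hc (m / X) : ℝ) : ℂ) =
      ∫ u : ℝ, G (s + (b + u * I)) * (X : ℂ) ^ ((b : ℂ) + u * I) * mellin hC (b + u * I) := by
  have hF : ∀ m : ℕ, ∀ u : ℝ, m ≠ 0 → c m * (m : ℂ) ^ (-(s + (b + u * I))) *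
      ((X : ℂ) ^ ((b : ℂ) + u * I) * mellin hC (b + u * I)) = c m * (m : ℂ) ^ (-s) *
      ((((m : ℝ) / X : ℝ) : ℂ) ^ (-((b : ℂ) + u * I)) * mellin hC (b + u * I)) := by
    intro m u hm
    have hm0 : (0 : ℝ) < m := by exact_mod_cast Nat.pos_of_ne_zero hm
    have e1 : ((m : ℕ) : ℂ) = (((m : ℝ)) : ℂ) := by norm_cast
    rw [e1, cp hm0, cp hm0, cp hX, cp (div_pos hm0 hX), Real.log_div hm0.ne' hX.ne']
    have e2 : cexp (-(s + (b + u * I)) * (Real.log m : ℝ)) * cexp (((b : ℂ) + u * I) * (Real.log X : ℝ)) =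
        cexp (-s * (Real.log m : ℝ)) * cexp (-((b : ℂ) + u * I) * ((Real.log m - Real.log X : ℝ) : ℂ)) := by
      rw [← Complex.exp_add, ← Complex.exp_add]
      congr 1
      push_cast
      ring
    linear_combination (c m * mellin hC (b + u * I)) * e2
  have hI := xm_int hc hX
  have hcont : ∀ m : ℕ, m ≠ 0 → Continuous (fun u : ℝ => (m : ℂ) ^ (-(s + (b + u * I)))) := by
    intro m hm
    have hm0 : (0 : ℝ) < m := by exact_mod_cast Nat.pos_of_ne_zero hm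
    have e1 : ((m : ℕ) : ℂ) = (((m : ℝ)) : ℂ) := by norm_cast
    have : (fun u : ℝ => (m : ℂ) ^ (-(s + (b + u * I)))) =
        fun u : ℝ => cexp ((-(s + (b + u * I))) * (Real.log m : ℝ)) := by
      funext u
      rw [e1]
      exact cp hm0 _
    rw [this]
    fun_prop
  have hnorm : ∀ m : ℕ, m ≠ 0 → ∀ u : ℝ, ‖(m : ℂ) ^ (-(s + (b + u * I)))‖ ≤ (m : ℝ) ^ (-2 : ℝ) := by
    intro m hm u
    have hm0 : (0 : ℝ) < m := by exact_mod_cast Nat.pos_of_ne_zero hm
    have hm1 : (1 : ℝ) ≤ m := by exact_mod_cast Nat.one_le_iff_ne_zero.2 hm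
    have e1 : ((m : ℕ) : ℂ) = (((m : ℝ)) : ℂ) := by norm_cast
    rw [e1, norm_cpow_eq_rpow_re_of_pos hm0]
    refine Real.rpow_le_rpow_of_exponent_le hm1 ?_
    simp
    linarith
  have hint : ∀ m : ℕ, Integrable (fun u : ℝ => c m * (m : ℂ) ^ (-(s + (b + u * I))) *
      ((X : ℂ) ^ ((b : ℂ) + u * I) * mellin hC (b + u * I))) := by
    intro m
    rcases eq_or_ne m 0 with hm | hm
    · rw [hm, h0]
      simp
    · refine hI.bdd_mul (c := ‖c m‖ * (m : ℝ) ^ (-2 : ℝ)) ?_ ?_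
      · exact (continuous_const.mul (hcont m hm)).aestronglyMeasurable
      · refine Eventually.of_forall fun u => ?_
        rw [norm_mul]
        exact mul_le_mul_of_nonneg_left (hnorm m hm u) (norm_nonneg _)
  have hsum : Summable (fun m : ℕ => ∫ u : ℝ, ‖c m * (m : ℂ) ^ (-(s + (b + u * I))) *
      ((X : ℂ) ^ ((b : ℂ) + u * I) * mellin hC (b + u * I))‖) := by
    refine Summable.of_nonneg_of_le (fun m => integral_nonneg fun u => norm_nonneg _) (fun m => ?_)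
      (hs0.mul_right (∫ u : ℝ, ‖(X : ℂ) ^ ((b : ℂ) + u * I) * mellin hC (b + u * I)‖))
    rw [← integral_const_mul]
    refine integral_mono (hint m).norm (hI.norm.const_mul _) fun u => ?_
    rcases eq_or_ne m 0 with hm | hm
    · beta_reduce
      rw [hm, h0]
      simp
    · beta_reduce
      rw [norm_mul, norm_mul]
      exact mul_le_mul_of_nonneg_right (mul_le_mul_of_nonneg_left (hnorm m hm u) (norm_nonneg _))
        (norm_nonneg _)
  have h1 := hasSum_integral_of_summable_integral_norm hint hsum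
  have h2 : ∀ u : ℝ, ∑' m : ℕ, c m * (m : ℂ) ^ (-(s + (b + u * I))) *
      ((X : ℂ) ^ ((b : ℂ) + u * I) * mellin hC (b + u * I)) =
      G (s + (b + u * I)) * (X : ℂ) ^ ((b : ℂ) + u * I) * mellin hC (b + u * I) := by
    intro u
    have h3 := (hser (s + (b + u * I)) (by simp; linarith)).mul_right
      ((X : ℂ) ^ ((b : ℂ) + u * I) * mellin hC (b + u * I))
    rw [h3.tsum_eq]
    ring
  rw [integral_congr_ae (Eventually.of_forall h2)] at h1
  have h3 : ∀ m : ℕ, (∫ u : ℝ, c m * (m : ℂ) ^ (-(s + (b + u * I))) *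
      ((X : ℂ) ^ ((b : ℂ) + u * I) * mellin hC (b + u * I))) =
      2 * Real.pi * (c m * (m : ℂ) ^ (-s) * ((Hc (m / X) : ℝ) : ℂ)) := by
    intro m
    rcases eq_or_ne m 0 with hm | hm
    · rw [hm, h0]
      simp
    · have hm0 : (0 : ℝ) < m := by exact_mod_cast Nat.pos_of_ne_zero hm
      rw [integral_congr_ae (Eventually.of_forall fun u => hF m u hm), integral_const_mul,
        inv_h hc (div_pos hm0 hX)]
      unfold hC
      ring
  rw [show (fun m : ℕ => ∫ u : ℝ, c m * (m : ℂ) ^ (-(s + (b + u * I))) *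
      ((X : ℂ) ^ ((b : ℂ) + u * I) * mellin hC (b + u * I))) =
      fun m : ℕ => 2 * Real.pi * (c m * (m : ℂ) ^ (-s) * ((Hc (m / X) : ℝ) : ℂ)) from
      funext h3] at h1
  have h4 : HasSum (fun m : ℕ => 2 * Real.pi * (c m * (m : ℂ) ^ (-s) * ((Hc (m / X) : ℝ) : ℂ)))
      (∑ m ∈ Finset.Icc 1 ⌊2 * X⌋₊, 2 * Real.pi * (c m * (m : ℂ) ^ (-s) *
        ((Hc (m / X) : ℝ) : ℂ))) := by
    refine hasSum_sum_of_ne_finset_zero fun m hm => ?_
    rw [Finset.mem_Icc, not_and_or, not_le, not_le] at hm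
    rcases hm with hm | hm
    · have hm0 : m = 0 := by omega
      rw [hm0, h0]
      simp
    · have h5 : 2 * X < m := (Nat.floor_lt (by positivity)).1 hm
      have h6 : hC (m / X) = 0 := hC_hi _ (by rw [le_div_iff₀ hX]; exact h5.le)
      unfold hC at h6
      rw [h6]
      simp
  rw [Finset.mul_sum]
  exact (h1.unique h4).symm

/-- the inverse series -/
theorem inv_ser (O : LFn) {s : ℂ} (hs : 2 ≤ s.re) :
    HasSum (fun n : ℕ => O.mu n * (n : ℂ) ^ (-s)) ((O.L s)⁻¹) := by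
  have h1 := (Pool.Agent.Q252.GB.summ_of O.mu O.mu_sum hs).hasSum
  have h2 := Pool.Agent.Q252.GB.inv_eq O hs
  unfold LSeries at h2
  rw [h2] at h1
  rwa [term_eq O.mu_zero] at h1

/-- the smoothed sum of the inverse coefficients in a zero-free half-plane -/
theorem mu_smooth (O : LFn) {θ : ℝ} (hz : ∀ s : ℂ, θ < s.re → O.L s ≠ 0) {κ η : ℝ} (hκ : 0 < κ)
    (hκθ : κ < 1 / 2 - θ) (hη : 0 < η) : ∃ C : ℝ, 0 < C ∧ ∀ (t X : ℝ), 1 ≤ X →
    ‖∑ m ∈ Finset.Icc 1 ⌊2 * X⌋₊, O.mu m * (m : ℂ) ^ (-cl t) * ((Hc (m / X) : ℝ) : ℂ) - (O.L (cl t))⁻¹‖ ≤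
      C * (1 + |t|) ^ η * X ^ (-κ) := by
  obtain ⟨σ, hσ⟩ : ∃ σ : ℝ, σ = 1 / 2 - κ := ⟨_, rfl⟩
  have hθσ : θ < σ := by linarith
  obtain ⟨C, hC0, hlit⟩ := lit O hz hθσ hη
  obtain ⟨M, hM, hN⟩ := NN_decay η 2 hη.le
  obtain ⟨G, hG⟩ : ∃ G : ℂ → ℂ, G = fun s => (O.L s)⁻¹ := ⟨_, rfl⟩
  have hGn : ∀ s : ℂ, σ ≤ s.re → ‖G s‖ ≤ C * (1 + |s.im|) ^ η := fun s hs => by
    rw [hG]
    exact (hlit s hs).2
  obtain ⟨U, hU⟩ : ∃ U : Set ℂ, U = {s : ℂ | θ < s.re} := ⟨_, rfl⟩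
  have hUo : IsOpen U := by rw [hU]; exact isOpen_lt continuous_const Complex.continuous_re
  have hGd : DifferentiableOn ℂ G U := by
    intro s hs
    rw [hG]
    rw [hU] at hs
    exact ((O.entire s).inv (hz s hs)).differentiableWithinAt
  refine ⟨C / κ * M, by positivity, fun t X hX => ?_⟩
  have hX0 : 0 < X := by linarith
  obtain ⟨s, hs⟩ : ∃ s : ℂ, s = cl t := ⟨_, rfl⟩
  have hsre : s.re = 1 / 2 := by rw [hs]; simp [cl]
  have hsim : s.im = t := by rw [hs]; simp [cl]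
  rw [← hs]
  have hsU : s ∈ U := by rw [hU]; show θ < s.re; rw [hsre]; linarith
  have hXd : ∀ w : ℂ, (X : ℂ) ^ w = cexp (w * (Real.log X : ℝ)) := cp hX0
  have hXdiff : Differentiable ℂ (fun w : ℂ => (X : ℂ) ^ w) := by
    rw [funext hXd]
    fun_prop
  have hdU : DifferentiableOn ℂ (dslope G s) U :=
    (differentiableOn_dslope (f := G) (c := s) (s := U) (hUo.mem_nhds hsU)).2 hGd
  -- size of the difference quotient
  have hgrow : ∀ w : ℂ, -κ ≤ w.re → ‖G (s + w)‖ + ‖G s‖ ≤ 2 * C * (1 + |t|) ^ η * (1 + ‖w‖) ^ η := by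
    intro w hw
    have h1 := hGn (s + w) (by rw [add_re, hsre]; linarith)
    have h2 := hGn s (by rw [hsre]; linarith)
    rw [add_im, hsim] at h1
    rw [hsim] at h2
    have h3 : (1 + |t + w.im|) ^ η ≤ (1 + |t|) ^ η * (1 + ‖w‖) ^ η := by
      rw [← Real.mul_rpow (by positivity) (by positivity)]
      refine Real.rpow_le_rpow (by positivity) ?_ hη.le
      have h4 := abs_add_le t w.im
      have h5 := Complex.abs_im_le_norm w
      have h6 := abs_nonneg t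
      have h7 := norm_nonneg w
      nlinarith
    have h4 : (1 + |t|) ^ η ≤ (1 + |t|) ^ η * (1 + ‖w‖) ^ η := by
      refine le_mul_of_one_le_right (by positivity) ?_
      exact Real.one_le_rpow (by linarith [norm_nonneg w]) hη.le
    calc ‖G (s + w)‖ + ‖G s‖ ≤ C * ((1 + |t|) ^ η * (1 + ‖w‖) ^ η) + C * ((1 + |t|) ^ η * (1 + ‖w‖) ^ η) :=
          add_le_add (h1.trans (by gcongr)) (h2.trans (by gcongr))
      _ = _ := by ring
  have hfar : ∀ w : ℂ, -κ ≤ w.re → κ ≤ ‖w‖ →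
      ‖dslope G s (s + w)‖ ≤ 2 * C / κ * (1 + |t|) ^ η * (1 + ‖w‖) ^ η := by
    intro w hw hwn
    have hw0 : w ≠ 0 := by
      intro h
      rw [h, norm_zero] at hwn
      linarith
    rw [dslope_of_ne _ (by simpa using hw0), slope_def_field, norm_div, add_sub_cancel_left]
    calc ‖G (s + w) - G s‖ / ‖w‖ ≤ ‖G (s + w) - G s‖ / κ := div_le_div_of_nonneg_left (norm_nonneg _) hκ hwn
      _ ≤ (‖G (s + w)‖ + ‖G s‖) / κ := by
          have := norm_sub_le (G (s + w)) (G s)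
          gcongr
      _ ≤ (2 * C * (1 + |t|) ^ η * (1 + ‖w‖) ^ η) / κ := by
          have := hgrow w hw
          gcongr
      _ = _ := by ring
  obtain ⟨M1, hM1⟩ := (isCompact_closedBall s κ).exists_bound_of_continuousOn (f := dslope G s)
    (hdU.continuousOn.mono (by
      intro z hz'
      rw [hU]
      have h1 := Complex.abs_re_le_norm (z - s)
      rw [← dist_eq_norm] at h1
      have h2 := Metric.mem_closedBall.1 hz'
      have h3 := abs_le.1 (h1.trans h2)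
      rw [sub_re, hsre] at h3
      show θ < z.re
      linarith [h3.1]))
  obtain ⟨M2, hM2⟩ : ∃ M2 : ℝ, M2 = |M1| + 2 * C / κ * (1 + |t|) ^ η := ⟨_, rfl⟩
  have hM20 : 0 ≤ M2 := by rw [hM2]; positivity
  have hall : ∀ w : ℂ, -κ ≤ w.re → ‖dslope G s (s + w)‖ ≤ M2 * (1 + ‖w‖) ^ η := by
    intro w hw
    have hone : 1 ≤ (1 + ‖w‖) ^ η := Real.one_le_rpow (by linarith [norm_nonneg w]) hη.le
    rcases le_total κ ‖w‖ with h | h
    · refine (hfar w hw h).trans ?_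
      rw [hM2]
      have : 0 ≤ |M1| * (1 + ‖w‖) ^ η := by positivity
      nlinarith
    · have h1 := hM1 (s + w) (by rw [Metric.mem_closedBall, dist_eq_norm, add_sub_cancel_left]; exact h)
      have h2 := le_abs_self M1
      have h3 : |M1| ≤ M2 := by
        rw [hM2]
        have : 0 ≤ 2 * C / κ * (1 + |t|) ^ η := by positivity
        linarith
      calc ‖dslope G s (s + w)‖ ≤ M2 * 1 := by linarith
        _ ≤ _ := by gcongr
  have hNx : ∀ w : ℂ, ‖(X : ℂ) ^ w‖ = X ^ w.re := fun w => norm_cpow_eq_rpow_re_of_pos hX0 w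
  have hb : ∀ w : ℂ, -κ ≤ w.re → w.re ≤ 2 →
      ‖dslope G s (s + w) * ((X : ℂ) ^ w * NN w)‖ ≤ (M2 * M * X ^ (2 : ℝ)) / (1 + w.im ^ 2) := by
    intro w h1 h2
    rw [norm_mul, norm_mul, hNx]
    calc ‖dslope G s (s + w)‖ * (X ^ w.re * ‖NN w‖) ≤ (M2 * (1 + ‖w‖) ^ η) * (X ^ (2 : ℝ) * ‖NN w‖) := by
          have h3 := hall w h1
          have h4 : X ^ w.re ≤ X ^ (2 : ℝ) := Real.rpow_le_rpow_of_exponent_le hX h2
          gcongr
      _ = (M2 * X ^ (2 : ℝ)) * ((1 + ‖w‖) ^ η * ‖NN w‖) := by ring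
      _ ≤ (M2 * X ^ (2 : ℝ)) * (M / (1 + w.im ^ 2)) := by
          have h3 := hN w h2
          gcongr
      _ = _ := by ring
  obtain ⟨F, hF⟩ : ∃ F : ℂ → ℂ, F = fun w => dslope G s (s + w) * ((X : ℂ) ^ w * NN w) := ⟨_, rfl⟩
  have hFd : ∀ w : ℂ, -κ ≤ w.re → DifferentiableAt ℂ F w := by
    intro w hw
    rw [hF]
    have h1 : DifferentiableAt ℂ (dslope G s) (s + w) := by
      refine hdU.differentiableAt (hUo.mem_nhds ?_)
      rw [hU]
      show θ < (s + w).re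
      rw [add_re, hsre]
      linarith
    have h2 : DifferentiableAt ℂ (fun w : ℂ => dslope G s (s + w)) w :=
      DifferentiableAt.comp w h1 (by fun_prop)
    exact h2.mul ((hXdiff w).mul (NN_diff w))
  have hshift := Pool.Agent.Q237.BD.vshift (F := F) (a := -κ) (b := 2) (M := M2 * M * X ^ (2 : ℝ)) (by linarith) ∅
    countable_empty (fun w hw => (hFd w hw.1).continuousAt.continuousWithinAt) (fun w h1 _ _ => hFd w h1.le)
    (fun w h1 h2 => by rw [hF]; exact hb w h1 h2)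
  have hser : ∀ z : ℂ, 2 ≤ z.re → HasSum (fun n : ℕ => O.mu n * (n : ℂ) ^ (-z)) (G z) := fun z hz' => by
    rw [hG]
    exact inv_ser O hz'
  have h1 := sum_eq O.mu_zero O.mu_sum hser (s := s) (b := 2) (X := X) one_le_two (by rw [hsre]; norm_num) hX0
  have h2 := const_eq (G s) (c := 2) (X := X) one_le_two hX
  have hi : Integrable (fun u : ℝ => G s * (X : ℂ) ^ (((2 : ℝ) : ℂ) + u * I) * mellin hC (((2 : ℝ) : ℂ) + u * I)) := by
    have := (xm_int (c := 2) one_le_two hX0).const_mul (G s)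
    refine this.congr (Eventually.of_forall fun u => ?_)
    beta_reduce
    ring
  have hGi : Integrable (fun u : ℝ => F (((2 : ℝ) : ℂ) + u * I)) := by
    refine Pool.Agent.Q237.BD.vint (M := M2 * M * X ^ (2 : ℝ))
      (fun w hw => (hFd w (by rw [show w.re = 2 from hw]; linarith)).continuousAt.continuousWithinAt) ?_
    intro z hz'
    rw [hF]
    exact hb z (by linarith) (by linarith)
  have e1 : ∀ u : ℝ, G (s + (((2 : ℝ) : ℂ) + u * I)) * (X : ℂ) ^ (((2 : ℝ) : ℂ) + u * I) *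
      mellin hC (((2 : ℝ) : ℂ) + u * I) = G s * (X : ℂ) ^ (((2 : ℝ) : ℂ) + u * I) *
      mellin hC (((2 : ℝ) : ℂ) + u * I) + F (((2 : ℝ) : ℂ) + u * I) := by
    intro u
    have e2 := sub_smul_dslope G s (s + (((2 : ℝ) : ℂ) + u * I))
    rw [add_sub_cancel_left, smul_eq_mul] at e2
    have e3 := NN_eq (w := ((2 : ℝ) : ℂ) + u * I) (by simp)
    rw [hF]
    beta_reduce
    rw [← e3]
    linear_combination (-(X : ℂ) ^ (((2 : ℝ) : ℂ) + u * I) * mellin hC (((2 : ℝ) : ℂ) + u * I)) * e2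
  rw [integral_congr_ae (Eventually.of_forall e1), integral_add hi hGi, ← h2] at h1
  have h3 : 2 * Real.pi * (∑ m ∈ Finset.Icc 1 ⌊2 * X⌋₊, O.mu m * (m : ℂ) ^ (-s) *
      ((Hc (m / X) : ℝ) : ℂ) - G s) = ∫ u : ℝ, F (((-κ : ℝ) : ℂ) + u * I) := by
    rw [hshift]
    linear_combination h1
  have h4 : ‖∫ u : ℝ, F (((-κ : ℝ) : ℂ) + u * I)‖ ≤ 2 * C / κ * (1 + |t|) ^ η * X ^ (-κ) * M * Real.pi := by
    have h5 : ‖∫ u : ℝ, F (((-κ : ℝ) : ℂ) + u * I)‖ ≤
        ∫ u : ℝ, 2 * C / κ * (1 + |t|) ^ η * X ^ (-κ) * M * (1 + u ^ 2)⁻¹ := by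
      refine norm_integral_le_of_norm_le (integrable_inv_one_add_sq.const_mul _) ?_
      refine Eventually.of_forall fun u => ?_
      obtain ⟨w, hw⟩ : ∃ w : ℂ, w = ((-κ : ℝ) : ℂ) + u * I := ⟨_, rfl⟩
      have hwre : w.re = -κ := by rw [hw]; simp
      have hwim : w.im = u := by rw [hw]; simp
      rw [← hw, hF]
      beta_reduce
      rw [norm_mul, norm_mul, hNx, hwre]
      have h6 := hfar w (by rw [hwre]) (by
        have := Complex.abs_re_le_norm w
        rw [hwre, abs_neg, abs_of_pos hκ] at this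
        exact this)
      have h7 := hN w (by rw [hwre]; linarith)
      rw [hwim] at h7
      calc ‖dslope G s (s + w)‖ * (X ^ (-κ) * ‖NN w‖) ≤
            (2 * C / κ * (1 + |t|) ^ η * (1 + ‖w‖) ^ η) * (X ^ (-κ) * ‖NN w‖) := by gcongr
        _ = (2 * C / κ * (1 + |t|) ^ η * X ^ (-κ)) * ((1 + ‖w‖) ^ η * ‖NN w‖) := by ring
        _ ≤ (2 * C / κ * (1 + |t|) ^ η * X ^ (-κ)) * (M / (1 + u ^ 2)) := by gcongr
        _ = _ := by rw [div_eq_mul_inv]; ring
    rw [integral_const_mul, integral_univ_inv_one_add_sq] at h5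
    exact h5
  rw [← h3, norm_mul] at h4
  have h6 : ‖(2 * Real.pi : ℂ)‖ = 2 * Real.pi := by
    rw [norm_mul, Complex.norm_real, Complex.norm_ofNat, Real.norm_eq_abs, abs_of_pos Real.pi_pos]
  rw [h6] at h4
  have hpi := Real.pi_pos
  have h7 : G s = (O.L s)⁻¹ := by rw [hG]
  rw [← h7]
  have h8 : 2 * C / κ * (1 + |t|) ^ η * X ^ (-κ) * M * Real.pi =
      2 * Real.pi * (C / κ * M * (1 + |t|) ^ η * X ^ (-κ)) := by ring
  rw [h8] at h4
  exact le_of_mul_le_mul_left h4 (by positivity)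

end Pool.Agent.H313.NR
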